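import Pool.Agent.U32.Rect.Main

/-!
# The lines in the directions of a conic
-/

set_option autoImplicit false

namespace Pool.Agent.U32.Rect

open Finset Pool.Agent.R181.Maj Pool.Agent.R181.LW

/-- The vertices: the lines of `F_q ^ 3` in the directions `(1, i, i ^ 2)`, `i < r`. -/
abbrev ConicV (r q : ℕ) : Type := Σ _ : Fin r, (ZMod q × ZMod q)

/-- the lines through a point -/
def conicPt (r q : ℕ) (x : ZMod q × ZMod q × ZMod q) : ∀ _ : Fin r, ZMod q × ZMod q :=
  fun i => ((i : ℕ) * x.1 - x.2.1, (i : ℕ) ^ 2 * x.1 - x.2.2)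

/-- The edges: the points of `F_q ^ 3`, as the sets of the lines through them. -/
noncomputable def conic (r q : ℕ) : Set (Finset (ConicV r q)) :=
  Set.range fun x => edge (V := ConicV r q) (X := fun _ => ZMod q × ZMod q) id (conicPt r q x)

variable {r q : ℕ}

theorem cast_ne [Fact q.Prime] (hq : r ≤ q) {i j : Fin r} (h : i ≠ j) :
    ((i : ℕ) : ZMod q) ≠ ((j : ℕ) : ZMod q) := by
  intro he
  rw [ZMod.natCast_eq_natCast_iff'] at he
  rw [Nat.mod_eq_of_lt (lt_of_lt_of_le i.2 hq), Nat.mod_eq_of_lt (lt_of_lt_of_le j.2 hq)] at he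
  exact h (Fin.ext he)

theorem pt_eq_iff {x y : ZMod q × ZMod q × ZMod q} {i : Fin r} :
    conicPt r q x i = conicPt r q y i ↔
      x.2.1 - y.2.1 = (i : ℕ) * (x.1 - y.1) ∧ x.2.2 - y.2.2 = (i : ℕ) ^ 2 * (x.1 - y.1) := by
  rw [conicPt, conicPt, Prod.mk.injEq]
  constructor
  · rintro ⟨h1, h2⟩
    exact ⟨by linear_combination -h1, by linear_combination -h2⟩
  · rintro ⟨h1, h2⟩
    exact ⟨by linear_combination -h1, by linear_combination -h2⟩

/-- two points are on at most one line -/
theorem pt_unique [Fact q.Prime] (hq : r ≤ q) {x y : ZMod q × ZMod q × ZMod q} (hxy : x ≠ y)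
    {i j : Fin r} (hi : conicPt r q x i = conicPt r q y i)
    (hj : conicPt r q x j = conicPt r q y j) : i = j := by
  by_contra hne
  obtain ⟨h1, h2⟩ := pt_eq_iff.1 hi
  obtain ⟨h3, h4⟩ := pt_eq_iff.1 hj
  have h5 : (((i : ℕ) : ZMod q) - ((j : ℕ) : ZMod q)) * (x.1 - y.1) = 0 := by
    linear_combination h3 - h1
  rcases mul_eq_zero.1 h5 with h6 | h6
  · exact cast_ne hq hne (sub_eq_zero.1 h6)
  · rw [h6, mul_zero, sub_eq_zero] at h1 h2
    exact hxy (Prod.ext (sub_eq_zero.1 h6) (Prod.ext h1 h2))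

/-- three points are pairwise on lines only if they are on one line -/
theorem pt_triangle [Fact q.Prime] (hq : r ≤ q) {x y z : ZMod q × ZMod q × ZMod q}
    (hxy : x ≠ y) (hyz : y ≠ z) (hxz : x ≠ z) {i j k : Fin r}
    (hi : conicPt r q x i = conicPt r q y i) (hj : conicPt r q y j = conicPt r q z j)
    (hk : conicPt r q x k = conicPt r q z k) : i = j ∧ i = k := by
  by_cases hij : i = j
  · subst hij
    exact ⟨rfl, pt_unique hq hxz (hi.trans hj) hk⟩
  by_cases hik : i = k
  · subst hik
    exact absurd (pt_unique hq hyz (hi.symm.trans hk) hj) hij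
  by_cases hjk : j = k
  · subst hjk
    exact absurd (pt_unique hq hxy hi (hk.trans hj.symm)) hij
  exfalso
  obtain ⟨h1, h2⟩ := pt_eq_iff.1 hi
  obtain ⟨h3, h4⟩ := pt_eq_iff.1 hj
  obtain ⟨h5, h6⟩ := pt_eq_iff.1 hk
  set a : ZMod q := ((i : ℕ) : ZMod q)
  set b : ZMod q := ((j : ℕ) : ZMod q)
  set c : ZMod q := ((k : ℕ) : ZMod q)
  have hab : a - b ≠ 0 := sub_ne_zero.2 (cast_ne hq hij)
  have hac : a - c ≠ 0 := sub_ne_zero.2 (cast_ne hq hik)
  have h7 : (a - b) * ((a - c) * (x.1 - y.1)) = 0 := by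
    linear_combination (h6 - h2 - h4) - (b + c) * (h5 - h1 - h3)
  have h8 : x.1 - y.1 = 0 := by
    rcases mul_eq_zero.1 h7 with h | h
    · exact absurd h hab
    · rcases mul_eq_zero.1 h with h | h
      · exact absurd h hac
      · exact h
  rw [h8, mul_zero, sub_eq_zero] at h1 h2
  exact hxy (Prod.ext (sub_eq_zero.1 h8) (Prod.ext h1 h2))

theorem conicPt_injective [Fact q.Prime] (hr : 3 ≤ r) (hq : r ≤ q) :
    Function.Injective (conicPt r q) := by
  intro x y h
  by_contra hne
  have h1 := pt_unique hq hne (i := ⟨0, by omega⟩) (j := ⟨1, by omega⟩) (congrFun h _)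
    (congrFun h _)
  simp at h1

theorem card_conicV [Fact q.Prime] : Fintype.card (ConicV r q) = r * q ^ 2 := by
  rw [Fintype.card_sigma]
  simp [ZMod.card, sq]

theorem ncard_conic [Fact q.Prime] (hr : 3 ≤ r) (hq : r ≤ q) : (conic r q).ncard = q ^ 3 := by
  have hinj : Function.Injective fun x =>
      edge (V := ConicV r q) (X := fun _ => ZMod q × ZMod q) id (conicPt r q x) :=
    (edge_injective Function.injective_id).comp (conicPt_injective hr hq)
  rw [conic, ← Set.image_univ, Set.ncard_image_of_injective _ hinj, Set.ncard_univ,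
    Nat.card_eq_fintype_card, Fintype.card_prod, Fintype.card_prod, ZMod.card]
  ring

theorem conic_malcev : MalcevPiece r (conic r q) := by
  refine ⟨fun _ => ZMod q × ZMod q, fun _ a b c => a - b + c, id,
    Set.range (conicPt r q), ?_, Function.injective_id, ?_, ?_⟩
  · intro i a b
    exact ⟨by simp, by simp⟩
  · rintro _ ⟨x, rfl⟩ _ ⟨y, rfl⟩ _ ⟨z, rfl⟩
    refine ⟨x - y + z, ?_⟩
    funext i
    refine Prod.ext ?_ ?_
    · show (i : ℕ) * (x - y + z).1 - (x - y + z).2.1 = _
      simp only [conicPt, Prod.fst_add, Prod.fst_sub, Prod.snd_add, Prod.snd_sub]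
      ring
    · show (i : ℕ) ^ 2 * (x - y + z).1 - (x - y + z).2.2 = _
      simp only [conicPt, Prod.fst_add, Prod.fst_sub, Prod.snd_add, Prod.snd_sub]
      ring
  · rw [conic, ← Set.range_comp]
    rfl

/-- Distinct points are distinct as rows. -/
theorem three_rows [Fact q.Prime] (hq : r ≤ q) {x y z : ZMod q × ZMod q × ZMod q}
    (hxy : x ≠ y) (hyz : y ≠ z) (hxz : x ≠ z) :
    3 * r ≤ ∑ i, #({conicPt r q x i, conicPt r q y i, conicPt r q z i} :
      Finset (ZMod q × ZMod q)) + 2 := by
  classical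
  set n : Fin r → ℕ := fun i => #({conicPt r q x i, conicPt r q y i, conicPt r q z i} :
      Finset (ZMod q × ZMod q)) with hn
  set A := (univ : Finset (Fin r)).filter fun i => conicPt r q x i = conicPt r q y i with hA
  set B := (univ : Finset (Fin r)).filter fun i => conicPt r q y i = conicPt r q z i with hB
  set C := (univ : Finset (Fin r)).filter fun i => conicPt r q x i = conicPt r q z i with hC
  have hA1 : #A ≤ 1 := card_le_one.2 fun i hi j hj =>
    pt_unique hq hxy (mem_filter.1 hi).2 (mem_filter.1 hj).2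
  have hB1 : #B ≤ 1 := card_le_one.2 fun i hi j hj =>
    pt_unique hq hyz (mem_filter.1 hi).2 (mem_filter.1 hj).2
  have hC1 : #C ≤ 1 := card_le_one.2 fun i hi j hj =>
    pt_unique hq hxz (mem_filter.1 hi).2 (mem_filter.1 hj).2
  have h3 : ∀ i, i ∉ A → i ∉ B → i ∉ C → n i = 3 := by
    intro i h1 h2 h4
    have h1 : ¬ conicPt r q x i = conicPt r q y i := fun h => h1 (mem_filter.2 ⟨mem_univ _, h⟩)
    have h2 : ¬ conicPt r q y i = conicPt r q z i := fun h => h2 (mem_filter.2 ⟨mem_univ _, h⟩)
    have h4 : ¬ conicPt r q x i = conicPt r q z i := fun h => h4 (mem_filter.2 ⟨mem_univ _, h⟩)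
    show #({conicPt r q x i, conicPt r q y i, conicPt r q z i} :
      Finset (ZMod q × ZMod q)) = 3
    rw [card_insert_of_notMem (by simp [h1, h4]), card_insert_of_notMem (by simp [h2]),
      card_singleton]
  have h1 : ∀ i, 1 ≤ n i := fun i => card_pos.2 ⟨_, mem_insert_self _ _⟩
  have h2 : ∀ i, ¬ (conicPt r q x i = conicPt r q y i ∧ conicPt r q x i = conicPt r q z i) →
      2 ≤ n i := by
    intro i h
    by_contra hlt
    have hle : n i ≤ 1 := by omega
    have h5 := card_le_one.1 hle
    exact h ⟨h5 _ (by simp) _ (by simp), h5 _ (by simp) _ (by simp)⟩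
  by_cases hall : ∃ i₀, conicPt r q x i₀ = conicPt r q y i₀ ∧
      conicPt r q x i₀ = conicPt r q z i₀
  · obtain ⟨i₀, h4, h5⟩ := hall
    have h6 : ∀ i, i ≠ i₀ → n i = 3 := by
      intro i hi
      refine h3 i ?_ ?_ ?_
      · intro h; exact hi (pt_unique hq hxy (mem_filter.1 h).2 h4)
      · intro h; exact hi (pt_unique hq hyz (mem_filter.1 h).2 (h4.symm.trans h5))
      · intro h; exact hi (pt_unique hq hxz (mem_filter.1 h).2 h5)
    have h7 : ∑ i ∈ (univ : Finset (Fin r)).erase i₀, n i = 3 * (r - 1) := by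
      rw [sum_congr rfl (fun i hi => h6 i (mem_erase.1 hi).1), sum_const,
        card_erase_of_mem (mem_univ _), card_univ, Fintype.card_fin, smul_eq_mul, mul_comm]
    have h8 : ∑ i, n i = n i₀ + 3 * (r - 1) := by
      rw [← h7]; exact (add_sum_erase _ _ (mem_univ _)).symm
    have h9 := h1 i₀
    have h10 : 0 < r := i₀.pos
    show 3 * r ≤ ∑ i, n i + 2
    omega
  · push Not at hall
    have h4 : ∀ i, 3 ≤ n i + ((if i ∈ A then 1 else 0) + (if i ∈ B then 1 else 0) +
        (if i ∈ C then 1 else 0)) := by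
      intro i
      by_cases ha : i ∈ A
      · have := h2 i (fun h => hall i h.1 h.2)
        rw [if_pos ha]; omega
      by_cases hb : i ∈ B
      · have := h2 i (fun h => hall i h.1 h.2)
        rw [if_pos hb]; omega
      by_cases hc : i ∈ C
      · have := h2 i (fun h => hall i h.1 h.2)
        rw [if_pos hc]; omega
      rw [h3 i ha hb hc]; omega
    have h5 : 3 * r ≤ ∑ i, n i + (#A + #B + #C) := by
      have h6 : ∑ _i : Fin r, 3 ≤ ∑ i, (n i + ((if i ∈ A then 1 else 0) +
        (if i ∈ B then 1 else 0) + (if i ∈ C then 1 else 0))) := sum_le_sum fun i _ => h4 i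
      rw [sum_const, card_univ, Fintype.card_fin, smul_eq_mul, sum_add_distrib, sum_add_distrib,
        sum_add_distrib, sum_boole, sum_boole, sum_boole] at h6
      simp only [filter_univ_mem, Nat.cast_id] at h6
      linarith
    have h6 : #A + #B + #C ≤ 2 := by
      by_contra hcon
      obtain ⟨i, hi⟩ := card_pos.1 (show 0 < #A by omega)
      obtain ⟨j, hj⟩ := card_pos.1 (show 0 < #B by omega)
      obtain ⟨k, hk⟩ := card_pos.1 (show 0 < #C by omega)
      obtain ⟨-, h8⟩ := pt_triangle hq hxy hyz hxz (mem_filter.1 hi).2 (mem_filter.1 hj).2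
        (mem_filter.1 hk).2
      subst h8
      exact hall i (mem_filter.1 hi).2 (mem_filter.1 hk).2
    show 3 * r ≤ ∑ i, n i + 2
    omega

/-- Any three edges span more than `3 (r - 2) + 3` vertices. -/
theorem conic_span [Fact q.Prime] (hr : 3 ≤ r) (hq : r ≤ q) :
    SpanMore (conic r q) 3 ((r - 2) * 3 + 3) := by
  classical
  intro T hT hTe
  set G : ZMod q × ZMod q × ZMod q → Finset (ConicV r q) := fun x =>
    edge (V := ConicV r q) (X := fun _ => ZMod q × ZMod q) id (conicPt r q x) with hG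
  obtain ⟨A, B, C, hAB, hAC, hBC, rfl⟩ := card_eq_three.1 hTe
  obtain ⟨x, rfl⟩ := hT (show A ∈ (({A, B, C} : Finset _) : Set _) by simp)
  obtain ⟨y, rfl⟩ := hT (show B ∈ (({G x, B, C} : Finset _) : Set _) by simp)
  obtain ⟨z, rfl⟩ := hT (show C ∈ (({G x, G y, C} : Finset _) : Set _) by simp)
  have hxy : x ≠ y := fun h => hAB (by rw [h])
  have hyz : y ≠ z := fun h => hBC (by rw [h])
  have hxz : x ≠ z := fun h => hAC (by rw [h])
  have h1 : ({G x, G y, G z} : Finset (Finset (ConicV r q))) =
      ({conicPt r q x, conicPt r q y, conicPt r q z} : Finset _).image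
      (edge (V := ConicV r q) (X := fun _ => ZMod q × ZMod q) id) := by
    rw [image_insert, image_insert, image_singleton]
  have h2 := union_eq (V := ConicV r q) (X := fun _ => ZMod q × ZMod q) (f := id)
    Function.injective_id {conicPt r q x, conicPt r q y, conicPt r q z}
  rw [← h1] at h2
  have h3 := three_rows hq hxy hyz hxz
  have h4 : ∀ i : Fin r, ({conicPt r q x, conicPt r q y, conicPt r q z} : Finset _).image
      (fun w => w i) = {conicPt r q x i, conicPt r q y i, conicPt r q z i} := by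
    intro i
    rw [image_insert, image_insert, image_singleton]
  simp only [h4] at h2
  show (r - 2) * 3 + 3 <
    (⋃ a ∈ ({G x, G y, G z} : Finset (Finset (ConicV r q))), (a : Set (ConicV r q))).ncard
  rw [h2]
  omega

/-- Any two edges have at most one common vertex. -/
theorem conic_span2 [Fact q.Prime] (hr : 3 ≤ r) (hq : r ≤ q) :
    SpanMore (conic r q) 2 (2 * r - 2) := by
  classical
  intro T hT hTe
  set G : ZMod q × ZMod q × ZMod q → Finset (ConicV r q) := fun x =>
    edge (V := ConicV r q) (X := fun _ => ZMod q × ZMod q) id (conicPt r q x) with hG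
  obtain ⟨A, B, hAB, rfl⟩ := card_eq_two.1 hTe
  obtain ⟨x, rfl⟩ := hT (show A ∈ (({A, B} : Finset _) : Set _) by simp)
  obtain ⟨y, rfl⟩ := hT (show B ∈ (({G x, B} : Finset _) : Set _) by simp)
  have hxy : x ≠ y := fun h => hAB (by rw [h])
  have h1 : ({G x, G y} : Finset (Finset (ConicV r q))) =
      ({conicPt r q x, conicPt r q y} : Finset _).image
      (edge (V := ConicV r q) (X := fun _ => ZMod q × ZMod q) id) := by
    rw [image_insert, image_singleton]
  have h2 := union_eq (V := ConicV r q) (X := fun _ => ZMod q × ZMod q) (f := id)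
    Function.injective_id {conicPt r q x, conicPt r q y}
  rw [← h1] at h2
  have h4 : ∀ i : Fin r, ({conicPt r q x, conicPt r q y} : Finset _).image
      (fun w => w i) = {conicPt r q x i, conicPt r q y i} := by
    intro i
    rw [image_insert, image_singleton]
  simp only [h4] at h2
  set C := (univ : Finset (Fin r)).filter fun i => conicPt r q x i = conicPt r q y i with hC
  have hC1 : #C ≤ 1 := card_le_one.2 fun i hi j hj =>
    pt_unique hq hxy (mem_filter.1 hi).2 (mem_filter.1 hj).2
  have h5 : ∀ i, 2 ≤ #({conicPt r q x i, conicPt r q y i} : Finset (ZMod q × ZMod q)) +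
      (if i ∈ C then 1 else 0) := by
    intro i
    by_cases h : i ∈ C
    · rw [if_pos h]
      have : 1 ≤ #({conicPt r q x i, conicPt r q y i} : Finset (ZMod q × ZMod q)) :=
        card_pos.2 ⟨_, mem_insert_self _ _⟩
      omega
    · rw [if_neg h, card_pair fun h' => h (mem_filter.2 ⟨mem_univ _, h'⟩)]
  have h6 : ∑ _i : Fin r, 2 ≤ ∑ i, (#({conicPt r q x i, conicPt r q y i} :
      Finset (ZMod q × ZMod q)) + (if i ∈ C then 1 else 0)) := sum_le_sum fun i _ => h5 i
  rw [sum_const, card_univ, Fintype.card_fin, smul_eq_mul, sum_add_distrib, sum_boole] at h6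
  simp only [filter_univ_mem, Nat.cast_id] at h6
  show 2 * r - 2 < (⋃ a ∈ ({G x, G y} : Finset (Finset (ConicV r q))), (a : Set (ConicV r q))).ncard
  rw [h2]
  omega

end Pool.Agent.U32.Rect
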