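import Pool.Agent.U32.Rect.Rel

/-!
# The number of members of a relation with rectangular projections
-/

set_option autoImplicit false

namespace Pool.Agent.U32.Rect

open Finset Pool.Agent.R181.Maj Pool.Agent.R181.LW

variable {r : ℕ} {X : Fin r → Type} [∀ i, DecidableEq (X i)]

/-- the block of `w` for the coordinates `a`, `b` -/
def blk (E : Finset (∀ i, X i)) (a b : Fin r) (w : ∀ i, X i) : Finset (Σ i, X i) :=
  (E.filter fun u => u a = w a).image fun u => ⟨b, u b⟩

theorem blk_left {E : Finset (∀ i, X i)} {a b : Fin r} {w w' : ∀ i, X i} (h : w a = w' a) :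
    blk E a b w = blk E a b w' := by
  rw [blk, blk, h]

theorem blk_le {E : Finset (∀ i, X i)} (hE : Rectangular (E : Set (∀ i, X i))) {a b : Fin r}
    (hab : a ≠ b) {w w' : ∀ i, X i} (hw : w ∈ E) (hw' : w' ∈ E) (h : w b = w' b) :
    blk E a b w ⊆ blk E a b w' := by
  intro s hs
  obtain ⟨u, hu, rfl⟩ := mem_image.1 hs
  obtain ⟨hu1, hu2⟩ := mem_filter.1 hu
  obtain ⟨v, hv, hv1, hv2⟩ := hE a b hab u hu1 w hw w' hw' hu2 h
  refine mem_image.2 ⟨v, mem_filter.2 ⟨hv, hv1⟩, ?_⟩
  rw [hv2]

theorem blk_right {E : Finset (∀ i, X i)} (hE : Rectangular (E : Set (∀ i, X i))) {a b : Fin r}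
    (hab : a ≠ b) {w w' : ∀ i, X i} (hw : w ∈ E) (hw' : w' ∈ E) (h : w b = w' b) :
    blk E a b w = blk E a b w' :=
  (blk_le hE hab hw hw' h).antisymm (blk_le hE hab hw' hw h.symm)

theorem exists_of_blk_eq {E : Finset (∀ i, X i)} {a b : Fin r} {w w' : ∀ i, X i} (hw' : w' ∈ E)
    (h : blk E a b w = blk E a b w') : ∃ u ∈ E, u a = w a ∧ u b = w' b := by
  have h1 : (⟨b, w' b⟩ : Σ i, X i) ∈ blk E a b w' :=
    mem_image.2 ⟨w', mem_filter.2 ⟨hw', rfl⟩, rfl⟩
  rw [← h] at h1
  obtain ⟨u, hu, h2⟩ := mem_image.1 h1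
  obtain ⟨hu1, hu2⟩ := mem_filter.1 hu
  rw [Sigma.mk.injEq] at h2
  exact ⟨u, hu1, hu2, eq_of_heq h2.2⟩

/-- the members of the relation all of whose coordinates have a large degree -/
def heavy (E : Finset (∀ i, X i)) (e : ℕ) : Finset (∀ i, X i) :=
  E.filter fun w => ∀ i, e ≤ #(E.filter fun t => t i = w i)

theorem heavy_sq [∀ i, Fintype (X i)] {E : Finset (∀ i, X i)}
    (hE : Rectangular (E : Set (∀ i, X i))) {e : ℕ} (hs : Spread E e ((r - 2) * e + 3))
    {a b c : Fin r} (hab : a ≠ b) (hac : a ≠ c) (hbc : b ≠ c) :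
    #(heavy E e) ^ 2 ≤ Fintype.card (X a) * Fintype.card (X b) * Fintype.card (X c) := by
  classical
  rcases (heavy E e).eq_empty_or_nonempty with h0 | hne
  · rw [h0]; simp
  set g : (∀ i, X i) → ∀ _ : Fin 3, Finset (Σ i, X i) := fun w =>
    ![blk E a b w, blk E a c w, blk E b c w] with hg
  have hmem : ∀ w ∈ heavy E e, w ∈ E := fun w hw => (mem_filter.1 hw).1
  have hdeg : ∀ w ∈ heavy E e, ∀ i, e ≤ #(E.filter fun t => t i = w i) :=
    fun w hw => (mem_filter.1 hw).2
  have hinj : Set.InjOn g (heavy E e) := by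
    intro w hw w' hw' h
    have hw := mem_coe.1 hw
    have hw' := mem_coe.1 hw'
    have e0 : blk E a b w = blk E a b w' := congrFun h 0
    have e1 : blk E a c w = blk E a c w' := congrFun h 1
    have e2 : blk E b c w = blk E b c w' := congrFun h 2
    obtain ⟨u, hu, hua, hub⟩ := exists_of_blk_eq (hmem w' hw') e0
    obtain ⟨v, hv, hva, hvc⟩ := exists_of_blk_eq (hmem w' hw') e1
    obtain ⟨z, hz, hzb, hzc⟩ := exists_of_blk_eq (hmem w' hw') e2
    have ha : w a = w' a := heavy_eq hE hs hab hac hbc (hmem w' hw') hu hv hua hub hva hvc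
      (hdeg w hw a)
    have hb : w b = w' b := heavy_eq hE hs hab.symm hbc hac (hmem w' hw') (hmem w hw) hz rfl ha
      hzb hzc (hdeg w hw b)
    funext i
    by_cases hia : i = a
    · rw [hia]; exact ha
    by_cases hib : i = b
    · rw [hib]; exact hb
    exact heavy_eq hE hs hia hib hab (hmem w' hw') (hmem w hw) (hmem w hw) rfl ha rfl hb
      (hdeg w hw i)
  have hLW := loomisWhitney 2 (fun _ => Finset (Σ i, X i)) ((heavy E e).image g)
    (hne.image g)
  rw [card_image_of_injOn hinj, Fin.prod_univ_three] at hLW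
  have h0 : #(((heavy E e).image g).image fun x => (0 : Fin 3).removeNth x) ≤
      Fintype.card (X c) := by
    rw [image_image]
    refine (card_image_le_of_factor (heavy E e) (fun w => w c) _ ?_).trans (card_le_univ _)
    intro w hw w' hw' h
    have e1 := blk_right hE hac (hmem w hw) (hmem w' hw') h
    have e2 := blk_right hE hbc (hmem w hw) (hmem w' hw') h
    funext j
    fin_cases j
    · exact e1
    · exact e2
  have h1 : #(((heavy E e).image g).image fun x => (1 : Fin 3).removeNth x) ≤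
      Fintype.card (X b) := by
    rw [image_image]
    refine (card_image_le_of_factor (heavy E e) (fun w => w b) _ ?_).trans (card_le_univ _)
    intro w hw w' hw' h
    have e1 := blk_right hE hab (hmem w hw) (hmem w' hw') h
    have e2 := blk_left (E := E) (b := c) h
    funext j
    fin_cases j
    · exact e1
    · exact e2
  have h2 : #(((heavy E e).image g).image fun x => (2 : Fin 3).removeNth x) ≤
      Fintype.card (X a) := by
    rw [image_image]
    refine (card_image_le_of_factor (heavy E e) (fun w => w a) _ ?_).trans (card_le_univ _)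
    intro w hw w' hw' h
    have e1 := blk_left (E := E) (b := b) h
    have e2 := blk_left (E := E) (b := c) h
    funext j
    fin_cases j
    · exact e1
    · exact e2
  calc #(heavy E e) ^ 2 ≤ _ := hLW
    _ ≤ Fintype.card (X c) * Fintype.card (X b) * Fintype.card (X a) :=
        Nat.mul_le_mul (Nat.mul_le_mul h0 h1) h2
    _ = _ := by ring

/-- The members with a coordinate of small degree are few. -/
theorem card_le_light [∀ i, Fintype (X i)] (E : Finset (∀ i, X i)) (e : ℕ) :
    #E ≤ (e - 1) * ∑ i, Fintype.card (X i) + #(heavy E e) := by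
  classical
  have h1 : E ⊆ heavy E e ∪ (univ : Finset (Fin r)).biUnion fun i =>
      ((univ : Finset (X i)).filter fun x => #(E.filter fun t => t i = x) < e).biUnion fun x =>
        E.filter fun t => t i = x := by
    intro w hw
    by_cases h : ∀ i, e ≤ #(E.filter fun t => t i = w i)
    · exact mem_union_left _ (mem_filter.2 ⟨hw, h⟩)
    · push Not at h
      obtain ⟨i, hi⟩ := h
      refine mem_union_right _ (mem_biUnion.2 ⟨i, mem_univ _, mem_biUnion.2 ⟨w i,
        mem_filter.2 ⟨mem_univ _, hi⟩, mem_filter.2 ⟨hw, rfl⟩⟩⟩)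
  have h2 : #((univ : Finset (Fin r)).biUnion fun i =>
      ((univ : Finset (X i)).filter fun x => #(E.filter fun t => t i = x) < e).biUnion fun x =>
        E.filter fun t => t i = x) ≤ (e - 1) * ∑ i, Fintype.card (X i) := by
    rw [mul_sum]
    refine card_biUnion_le.trans (sum_le_sum fun i _ => ?_)
    refine card_biUnion_le.trans ?_
    calc ∑ x ∈ (univ : Finset (X i)).filter fun x => #(E.filter fun t => t i = x) < e,
          #(E.filter fun t => t i = x)
        ≤ ∑ _x ∈ (univ : Finset (X i)).filter fun x => #(E.filter fun t => t i = x) < e,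
          (e - 1) := sum_le_sum fun x hx => by
            have := (mem_filter.1 hx).2
            omega
      _ = #((univ : Finset (X i)).filter fun x => #(E.filter fun t => t i = x) < e) * (e - 1) := by
          rw [sum_const, smul_eq_mul]
      _ ≤ Fintype.card (X i) * (e - 1) := Nat.mul_le_mul_right _ (card_le_univ _)
      _ = (e - 1) * Fintype.card (X i) := mul_comm _ _
  have h3 := (card_le_card h1).trans (card_union_le _ _)
  omega

/-- the average over the triples of consecutive directions -/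
theorem heavy_mean [∀ i, Fintype (X i)] {E : Finset (∀ i, X i)}
    (hE : Rectangular (E : Set (∀ i, X i))) {e : ℕ} (hs : Spread E e ((r - 2) * e + 3))
    (hr : 3 ≤ r) : r ^ 3 * #(heavy E e) ^ 2 ≤ (∑ i, Fintype.card (X i)) ^ 3 := by
  classical
  obtain ⟨k, rfl⟩ : ∃ k, r = k + 3 := ⟨r - 3, by omega⟩
  have hne1 : ∀ i : Fin (k + 3), i ≠ i + 1 := by
    intro i h
    have h1 : (1 : Fin (k + 3)) = 0 := by simpa using h.symm
    have h2 := congrArg Fin.val h1
    simp at h2
  have hne2 : ∀ i : Fin (k + 3), i ≠ i + 2 := by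
    intro i h
    have h1 : (2 : Fin (k + 3)) = 0 := by simpa using h.symm
    have h2 := congrArg Fin.val h1
    simp at h2
    rw [Nat.mod_eq_of_lt (by omega)] at h2
    omega
  have hne3 : ∀ i : Fin (k + 3), i + 1 ≠ i + 2 := by
    intro i h
    have h1 : (1 : Fin (k + 3)) = 2 := by simpa using h
    have h2 := congrArg Fin.val h1
    simp at h2
    rw [Nat.mod_eq_of_lt (by omega)] at h2
    omega
  have h1 : ∀ i : Fin (k + 3), #(heavy E e) ^ 2 ≤
      Fintype.card (X i) * Fintype.card (X (i + 1)) * Fintype.card (X (i + 2)) := fun i =>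
    heavy_sq hE hs (hne1 i) (hne2 i) (hne3 i)
  have h2 : (#(heavy E e) ^ 2) ^ (k + 3) ≤ (∏ i, Fintype.card (X i)) ^ 3 := by
    calc (#(heavy E e) ^ 2) ^ (k + 3) = ∏ _i : Fin (k + 3), #(heavy E e) ^ 2 := by
          rw [prod_const, card_univ, Fintype.card_fin]
      _ ≤ ∏ i : Fin (k + 3),
          (Fintype.card (X i) * Fintype.card (X (i + 1)) * Fintype.card (X (i + 2))) :=
          prod_le_prod' fun i _ => h1 i
      _ = (∏ i, Fintype.card (X i)) ^ 3 := by
          rw [prod_mul_distrib, prod_mul_distrib]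
          have e1 : ∏ i : Fin (k + 3), Fintype.card (X (i + 1)) = ∏ i, Fintype.card (X i) :=
            Equiv.prod_comp (Equiv.addRight (1 : Fin (k + 3))) fun i => Fintype.card (X i)
          have e2 : ∏ i : Fin (k + 3), Fintype.card (X (i + 2)) = ∏ i, Fintype.card (X i) :=
            Equiv.prod_comp (Equiv.addRight (2 : Fin (k + 3))) fun i => Fintype.card (X i)
          rw [e1, e2]
          ring
  have h3 := amgm (univ : Finset (Fin (k + 3))) univ_nonempty fun i => Fintype.card (X i)
  rw [card_univ, Fintype.card_fin] at h3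
  refine le_of_pow_le_pow_left₀ (n := k + 3) (by omega) (Nat.zero_le _) ?_
  calc ((k + 3) ^ 3 * #(heavy E e) ^ 2) ^ (k + 3)
      = ((k + 3) ^ (k + 3)) ^ 3 * (#(heavy E e) ^ 2) ^ (k + 3) := by
        rw [mul_pow, ← pow_mul (k + 3) 3, mul_comm 3 (k + 3), pow_mul (k + 3) (k + 3)]
    _ ≤ ((k + 3) ^ (k + 3)) ^ 3 * (∏ i, Fintype.card (X i)) ^ 3 := Nat.mul_le_mul_left _ h2
    _ = ((k + 3) ^ (k + 3) * ∏ i, Fintype.card (X i)) ^ 3 := by rw [mul_pow]
    _ ≤ ((∑ i, Fintype.card (X i)) ^ (k + 3)) ^ 3 := Nat.pow_le_pow_left h3 3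
    _ = ((∑ i, Fintype.card (X i)) ^ 3) ^ (k + 3) := by
        rw [← pow_mul, ← pow_mul, mul_comm]

end Pool.Agent.U32.Rect
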