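import Pool.Agent.U32.Rect.Tab

/-!
# The grid: exactly for which `s` some `s` points lie on at most `s + 3` lines
-/

set_option autoImplicit false

namespace Pool.Agent.U32.Rect

open Finset Pool.Agent.R181.Maj Pool.Agent.R181.LW

theorem c_le {n a b : ℕ} (hn : n ≤ 21) (h : n ≤ a * b) : c n ≤ a + b := by
  rcases Nat.eq_zero_or_pos n with rfl | hn0
  · exact Nat.zero_le _
  by_contra hcon
  push Not at hcon
  have h1 := check3 ⟨n, by omega⟩ hn0
  have h2 : (a + b) ^ 2 ≤ (c n - 1) ^ 2 := Nat.pow_le_pow_left (by omega) 2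
  have h3 : 4 * (a * b) ≤ (a + b) ^ 2 := by nlinarith [sq_nonneg ((a : ℤ) - b), two_mul_le_add_sq a b]
  have h1' : (c n - 1) ^ 2 < 4 * n := h1
  omega

theorem g_le {ι : Type*} (Z : Finset ι) (n : ι → ℕ) {t : ℕ} (ht : t ≤ 21)
    (hn : ∀ z ∈ Z, n z ≤ t) : ∑ z ∈ Z, n z ≤ 21 → g t (∑ z ∈ Z, n z) ≤ ∑ z ∈ Z, c (n z) := by
  classical
  induction Z using Finset.induction_on with
  | empty =>
    intro _
    rw [sum_empty, sum_empty]
    exact (check4 ⟨t, by omega⟩).le
  | insert z Z hz ih =>
    intro hsum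
    rw [sum_insert hz] at hsum ⊢
    rw [sum_insert hz]
    have h1 := ih (fun z hz => hn z (mem_insert_of_mem hz)) (by omega)
    rcases Nat.eq_zero_or_pos (n z) with h0 | h0
    · rw [h0, Nat.zero_add]
      exact h1.trans (Nat.le_add_left _ _)
    · have h2 := check1 ⟨t, by omega⟩ ⟨n z + ∑ z ∈ Z, n z, by omega⟩ ⟨n z, by omega⟩ h0
        (hn z (mem_insert_self _ _)) (Nat.le_add_right _ _)
      have h3 : n z + ∑ z ∈ Z, n z - n z = ∑ z ∈ Z, n z := by omega
      have h2' : g t (n z + ∑ z ∈ Z, n z) ≤ c (n z) + g t (n z + ∑ z ∈ Z, n z - n z) := h2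
      rw [h3] at h2'
      omega

theorem third : ∀ i j l : Fin 3, i ≠ 2 → j ≠ 2 → i ≠ j → l ≠ i → l = 2 ∨ l = j := by decide

theorem lines_ge {q : ℕ} (P : Finset (Fin 3 → Fin q)) (h3 : 3 ≤ #P) (h21 : #P ≤ 21)
    (h18 : #P ≠ 18) : #P + 3 < ∑ i : Fin 3, #(P.image fun p => i.removeNth p) := by
  classical
  set lay : Fin q → Finset (Fin 3 → Fin q) := fun z => P.filter fun p => p 2 = z with hlay
  set n : Fin q → ℕ := fun z => #(lay z) with hn
  have hsum : ∑ z, n z = #P :=
    (card_eq_sum_card_fiberwise (f := fun p : Fin 3 → Fin q => p 2) (t := univ)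
      (fun _ _ => mem_coe.2 (mem_univ _))).symm
  obtain ⟨p₀, hp₀⟩ := card_pos.1 (show 0 < #P by omega)
  obtain ⟨z₀, -, hz₀⟩ := exists_max_image (univ : Finset (Fin q)) n ⟨p₀ 2, mem_univ _⟩
  set t := n z₀ with ht
  have htP : t ≤ #P := card_le_card (filter_subset _ _)
  have ht1 : 1 ≤ t := by
    have h1 : 1 ≤ n (p₀ 2) := card_pos.2 ⟨p₀, mem_filter.2 ⟨hp₀, rfl⟩⟩
    exact h1.trans (hz₀ _ (mem_univ _))
  have hg := g_le univ n (t := t) (by omega) (fun z _ => hz₀ z (mem_univ _)) (by omega)
  rw [hsum] at hg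
  have hc2 := check2 ⟨#P, by omega⟩ h3 h18 ⟨t, by omega⟩ ht1 htP
  have hc2' : #P + 4 ≤ t + g t #P := hc2
  have hcn : ∀ z, c (n z) ≤
      #((lay z).image fun p => p 0) + #((lay z).image fun p => p 1) := by
    intro z
    have hz : n z ≤ #P := card_le_card (filter_subset _ _)
    refine c_le (by omega) ?_
    rw [← card_product]
    refine card_le_card_of_injOn (fun p => (p 0, p 1)) ?_ ?_
    · intro p hp
      exact mem_coe.2 (mem_product.2 ⟨mem_image_of_mem _ hp, mem_image_of_mem _ hp⟩)
    · intro p hp p' hp' h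
      obtain ⟨h0, h1⟩ := Prod.mk.inj h
      have h2 := (mem_filter.1 (mem_coe.1 hp)).2.trans (mem_filter.1 (mem_coe.1 hp')).2.symm
      funext j
      fin_cases j
      · exact h0
      · exact h1
      · exact h2
  have i2 : t ≤ #(P.image fun p => (2 : Fin 3).removeNth p) := by
    refine card_le_card_of_injOn (fun p => (2 : Fin 3).removeNth p) ?_ ?_
    · intro p hp
      exact mem_coe.2 (mem_image_of_mem _ (mem_filter.1 (mem_coe.1 hp)).1)
    · intro p hp p' hp' h
      have h : (2 : Fin 3).removeNth p = (2 : Fin 3).removeNth p' := h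
      have h2 := (mem_filter.1 (mem_coe.1 hp)).2.trans (mem_filter.1 (mem_coe.1 hp')).2.symm
      funext j
      by_cases hj : j = 2
      · rw [hj]; exact h2
      · exact removeNth_eq (P := fun _ => Fin q) h j hj
  have fib : ∀ (i : Fin 3) (j : Fin 3), i ≠ 2 → j ≠ 2 → i ≠ j →
      ∑ z, #((lay z).image fun p => p j) ≤ #(P.image fun p => i.removeNth p) := by
    intro i j hi hj hij
    have h1 : #(P.image fun p => i.removeNth p) =
        #(P.image fun p => (p 2, p j)) := by
      apply le_antisymm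
      · refine card_image_le_of_factor P _ _ ?_
        intro p _ p' _ h
        obtain ⟨h2, h3⟩ := Prod.mk.inj h
        funext k
        show p (i.succAbove k) = p' (i.succAbove k)
        have hk : i.succAbove k ≠ i := Fin.succAbove_ne i k
        have : i.succAbove k = 2 ∨ i.succAbove k = j := third i j _ hi hj hij hk
        rcases this with h4 | h4
        · rw [h4]; exact h2
        · rw [h4]; exact h3
      · refine card_image_le_of_factor P _ _ ?_
        intro p _ p' _ h
        exact Prod.ext (removeNth_eq (P := fun _ => Fin q) h 2 hi.symm)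
          (removeNth_eq (P := fun _ => Fin q) h j hij.symm)
    rw [h1, card_eq_sum_card_fiberwise (f := fun v : Fin q × Fin q => v.1) (t := univ)
      (fun _ _ => mem_coe.2 (mem_univ _))]
    refine sum_le_sum fun z _ => ?_
    refine card_le_card_of_injOn (fun y => (z, y)) ?_ ?_
    · intro y hy
      obtain ⟨p, hp, rfl⟩ := mem_image.1 (mem_coe.1 hy)
      obtain ⟨hp1, hp2⟩ := mem_filter.1 hp
      refine mem_coe.2 (mem_filter.2 ⟨mem_image.2 ⟨p, hp1, ?_⟩, rfl⟩)
      rw [hp2]
    · intro y _ y' _ h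
      exact (Prod.mk.inj h).2
  have i0 := fib 0 1 (by decide) (by decide) (by decide)
  have i1 := fib 1 0 (by decide) (by decide) (by decide)
  have h4 : ∑ z, c (n z) ≤ ∑ z, #((lay z).image fun p => p 0) +
      ∑ z, #((lay z).image fun p => p 1) := by
    rw [← sum_add_distrib]
    exact sum_le_sum fun z _ => hcn z
  rw [Fin.sum_univ_three]
  omega

/-- For `3 ≤ s ≤ 21`, `s ≠ 18`, any `s` edges of the grid span more than `s + 3` vertices. -/
theorem grid_span_small (q s : ℕ) (h3 : 3 ≤ s) (h21 : s ≤ 21) (h18 : s ≠ 18) :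
    SpanMore (grid 2 q) s (s + 3) := by
  classical
  intro T hT hTe
  set G : (Fin 3 → Fin q) → Finset (GridV 2 q) := fun p =>
    edge (V := GridV 2 q) (X := fun _ => Fin 2 → Fin q) id fun i => i.removeNth p with hG
  have hginj : Function.Injective G :=
    (edge_injective Function.injective_id).comp (grid_point_injective 2 q (by norm_num))
  set P : Finset (Fin 3 → Fin q) := univ.filter fun p => G p ∈ T with hP
  have hPT : P.image G = T := by
    ext a
    rw [mem_image]
    constructor
    · rintro ⟨p, hp, rfl⟩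
      exact (mem_filter.1 hp).2
    · intro ha
      obtain ⟨p, rfl⟩ := hT ha
      exact ⟨p, mem_filter.2 ⟨mem_univ _, ha⟩, rfl⟩
  have hPe : #P = s := by
    rw [← hTe, ← hPT, card_image_of_injective _ hginj]
  have h1 : T = (P.image fun p => fun i : Fin 3 => i.removeNth p).image
      (edge (V := GridV 2 q) (X := fun _ => Fin 2 → Fin q) id) := by
    rw [image_image, ← hPT]
    rfl
  have h2 := union_eq (V := GridV 2 q) (X := fun _ => Fin 2 → Fin q) (f := id)
    Function.injective_id (P.image fun p => fun i : Fin 3 => i.removeNth p)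
  rw [← h1] at h2
  rw [h2]
  have h4 : ∀ i : Fin 3, (P.image fun p => fun i : Fin 3 => i.removeNth p).image
      (fun x => x i) = P.image fun p => i.removeNth p := by
    intro i
    rw [image_image]
    rfl
  simp only [h4]
  have h5 := lines_ge P (by omega) (by omega) (by omega)
  rwa [hPe] at h5

/-! ## Dense sets of points -/

/-- the points of the tower with base `3 × 3` -/
def tri {s : ℕ} (hs : 0 < s) (t : ℕ) : Fin s × Fin s × Fin s :=
  (⟨(t % 3) % s, Nat.mod_lt _ hs⟩, ⟨(t / 3 % 3) % s, Nat.mod_lt _ hs⟩,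
    ⟨(t / 9) % s, Nat.mod_lt _ hs⟩)

theorem tower (s : ℕ) (h : s = 18 ∨ 23 ≤ s) : ∃ T : Finset (Fin s × Fin s × Fin s), #T = s ∧
    #(T.image fun p => (p.1, p.2.1)) + #(T.image fun p => (p.1, p.2.2)) +
      #(T.image fun p => (p.2.1, p.2.2)) ≤ s + 3 := by
  classical
  have hs : 0 < s := by omega
  have hlt : ∀ x, x ≤ s - 1 → x % s = x := fun x hx => Nat.mod_eq_of_lt (by omega)
  refine ⟨(range s).image (tri hs), ?_, ?_⟩
  · rw [card_image_of_injOn, card_range]
    intro t ht t' ht' h
    have ht := mem_range.1 (mem_coe.1 ht)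
    have ht' := mem_range.1 (mem_coe.1 ht')
    have e0 := congrArg (fun p : Fin s × Fin s × Fin s => p.1.val) h
    have e1 := congrArg (fun p : Fin s × Fin s × Fin s => p.2.1.val) h
    have e2 := congrArg (fun p : Fin s × Fin s × Fin s => p.2.2.val) h
    simp only [tri] at e0 e1 e2
    rw [hlt _ (by omega), hlt _ (by omega)] at e0
    rw [hlt _ (by omega), hlt _ (by omega)] at e1
    rw [hlt _ (by omega), hlt _ (by omega)] at e2
    omega
  · have b0 : #(((range s).image (tri hs)).image fun p => (p.1, p.2.1)) ≤ 9 := by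
      rw [image_image]
      have : (range s).image ((fun p : Fin s × Fin s × Fin s => (p.1, p.2.1)) ∘ tri hs) ⊆
          (range 9).image fun u => (⟨(u % 3) % s, Nat.mod_lt _ hs⟩, ⟨(u / 3) % s, Nat.mod_lt _ hs⟩) := by
        intro y hy
        obtain ⟨t, ht, rfl⟩ := mem_image.1 hy
        refine mem_image.2 ⟨t % 9, mem_range.2 (by omega), ?_⟩
        have e1 : t % 9 % 3 = t % 3 := by omega
        have e2 : t % 9 / 3 = t / 3 % 3 := by omega
        simp only [Function.comp, tri, e1, e2]
      exact (card_le_card this).trans (card_image_le.trans_eq (card_range _))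
    have b1 : #(((range s).image (tri hs)).image fun p => (p.2.1, p.2.2)) ≤ (s + 2) / 3 := by
      rw [image_image]
      have : (range s).image ((fun p : Fin s × Fin s × Fin s => (p.2.1, p.2.2)) ∘ tri hs) ⊆
          (range ((s + 2) / 3)).image fun u =>
            (⟨(u % 3) % s, Nat.mod_lt _ hs⟩, ⟨(u / 3) % s, Nat.mod_lt _ hs⟩) := by
        intro y hy
        obtain ⟨t, ht, rfl⟩ := mem_image.1 hy
        have ht := mem_range.1 ht
        refine mem_image.2 ⟨t / 3, mem_range.2 (by omega), ?_⟩
        have e2 : t / 3 / 3 = t / 9 := by omega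
        simp only [Function.comp, tri, e2]
      exact (card_le_card this).trans (card_image_le.trans_eq (card_range _))
    have b2 : #(((range s).image (tri hs)).image fun p => (p.1, p.2.2)) ≤
        3 * (s / 9) + min 3 (s % 9) := by
      rw [image_image]
      have : (range s).image ((fun p : Fin s × Fin s × Fin s => (p.1, p.2.2)) ∘ tri hs) ⊆
          (range (3 * (s / 9) + min 3 (s % 9))).image fun u =>
            (⟨(u % 3) % s, Nat.mod_lt _ hs⟩, ⟨(u / 3) % s, Nat.mod_lt _ hs⟩) := by
        intro y hy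
        obtain ⟨t, ht, rfl⟩ := mem_image.1 hy
        have ht := mem_range.1 ht
        refine mem_image.2 ⟨3 * (t / 9) + t % 3, mem_range.2 (by omega), ?_⟩
        have e1 : (3 * (t / 9) + t % 3) % 3 = t % 3 := by omega
        have e2 : (3 * (t / 9) + t % 3) / 3 = t / 9 := by omega
        simp only [Function.comp, tri, e1, e2]
      exact (card_le_card this).trans (card_image_le.trans_eq (card_range _))
    omega

/-- the points of a configuration with 22 points -/
def pts22 : Finset (Fin 22 × Fin 22 × Fin 22) :=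
  (range 18).image (tri (s := 22) (by norm_num)) ∪ {(0, 0, 2), (1, 0, 2), (0, 1, 2), (1, 1, 2)}

theorem tower22 : pts22.card = 22 ∧
    #(pts22.image fun p => (p.1, p.2.1)) + #(pts22.image fun p => (p.1, p.2.2)) +
      #(pts22.image fun p => (p.2.1, p.2.2)) ≤ 22 + 3 := by
  decide +kernel

theorem dense (s : ℕ) (h : s = 18 ∨ 22 ≤ s) : ∃ T : Finset (Fin s × Fin s × Fin s), #T = s ∧
    #(T.image fun p => (p.1, p.2.1)) + #(T.image fun p => (p.1, p.2.2)) +
      #(T.image fun p => (p.2.1, p.2.2)) ≤ s + 3 := by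
  rcases Nat.lt_or_ge s 23 with h1 | h1
  · rcases h with h | h
    · exact tower s (Or.inl h)
    · obtain rfl : s = 22 := by omega
      exact ⟨pts22, tower22⟩
  · exact tower s (Or.inr h1)

end Pool.Agent.U32.Rect
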