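import Pool.Agent.U32.Rect.Count

/-!
# Ternary relations with rectangular projections: the linear bound
-/

set_option autoImplicit false

namespace Pool.Agent.U32.Rect

open Finset Pool.Agent.R181.Maj Pool.Agent.R181.LW

theorem exists_inj {β : Type*} (S : Finset β) {s : ℕ} (h : s ≤ #S) :
    ∃ f : Fin s → β, Function.Injective f ∧ ∀ i, f i ∈ S :=
  ⟨fun i => (S.equivFin.symm (Fin.castLE h i)).1, fun _ _ hij =>
    Fin.castLE_injective h (S.equivFin.symm.injective (Subtype.ext hij)),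
    fun i => (S.equivFin.symm (Fin.castLE h i)).2⟩

variable {X : Fin 3 → Type} [∀ i, DecidableEq (X i)]

theorem deg_ge_blk (E : Finset (∀ i, X i)) (a b : Fin 3) (w : ∀ i, X i) :
    #(blk E a b w) ≤ #(E.filter fun t => t a = w a) := card_image_le

theorem h01 : (0 : Fin 3) ≠ 1 := by decide
theorem h02 : (0 : Fin 3) ≠ 2 := by decide
theorem h12 : (1 : Fin 3) ≠ 2 := by decide

/-- `s` members of the relation realising a set of triples of blocks. -/
theorem no_grid {E : Finset (∀ i, X i)} (hE : Rectangular (E : Set (∀ i, X i))) {s : ℕ}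
    (hs : Spread E s (s + 3)) (I J K : Fin s → Finset (Σ i, X i)) (hI : Function.Injective I)
    (hJ : Function.Injective J) (hK : Function.Injective K)
    (hw : ∀ α β γ, ∃ w ∈ E, blk E 0 1 w = I α ∧ blk E 0 2 w = J β ∧ blk E 1 2 w = K γ)
    (T : Finset (Fin s × Fin s × Fin s)) (hT : #T = s) :
    s + 3 < #(T.image fun p => (p.1, p.2.1)) + #(T.image fun p => (p.1, p.2.2)) +
      #(T.image fun p => (p.2.1, p.2.2)) := by
  classical
  have hs' : Spread E s ((3 - 2) * s + 3) := by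
    have : (3 - 2) * s + 3 = s + 3 := by omega
    rw [this]; exact hs
  choose W hWE hWI hWJ hWK using hw
  have d0 : ∀ α β γ, s ≤ #(E.filter fun t => t 0 = W α β γ 0) := by
    intro α β γ
    have h1 : (univ : Finset (Fin s)).image K ⊆
        (E.filter fun t => t 0 = W α β γ 0).image (blk E 1 2) := by
      intro y hy
      obtain ⟨γ', -, rfl⟩ := mem_image.1 hy
      obtain ⟨u, hu, h2, h3⟩ := exists_of_blk_eq (hWE α β γ')
        ((hWI α β γ).trans (hWI α β γ').symm)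
      exact mem_image.2 ⟨u, mem_filter.2 ⟨hu, h2⟩, (blk_left h3).trans (hWK α β γ')⟩
    have h2 := (card_le_card h1).trans card_image_le
    rwa [card_image_of_injective _ hK, card_univ, Fintype.card_fin] at h2
  have d1 : ∀ α β γ, s ≤ #(E.filter fun t => t 1 = W α β γ 1) := by
    intro α β γ
    have h1 : (univ : Finset (Fin s)).image J ⊆
        (E.filter fun t => t 1 = W α β γ 1).image (blk E 0 2) := by
      intro y hy
      obtain ⟨β', -, rfl⟩ := mem_image.1 hy
      obtain ⟨u, hu, h2, h3⟩ := exists_of_blk_eq (hWE α β' γ)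
        ((hWK α β γ).trans (hWK α β' γ).symm)
      exact mem_image.2 ⟨u, mem_filter.2 ⟨hu, h2⟩,
        (blk_right hE h02 hu (hWE α β' γ) h3).trans (hWJ α β' γ)⟩
    have h2 := (card_le_card h1).trans card_image_le
    rwa [card_image_of_injective _ hJ, card_univ, Fintype.card_fin] at h2
  have d2 : ∀ α β γ, s ≤ #(E.filter fun t => t 2 = W α β γ 2) := by
    intro α β γ
    have h1 : (univ : Finset (Fin s)).image I ⊆
        (E.filter fun t => t 2 = W α β γ 2).image (blk E 0 1) := by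
      intro y hy
      obtain ⟨α', -, rfl⟩ := mem_image.1 hy
      obtain ⟨u, hu, h2, h3⟩ := exists_of_blk_eq (hWE α β γ)
        ((hWJ α' β γ).trans (hWJ α β γ).symm)
      exact mem_image.2 ⟨u, mem_filter.2 ⟨hu, h3⟩, (blk_left h2).trans (hWI α' β γ)⟩
    have h2 := (card_le_card h1).trans card_image_le
    rwa [card_image_of_injective _ hI, card_univ, Fintype.card_fin] at h2
  have e0 : ∀ α β γ γ', W α β γ 0 = W α β γ' 0 := by
    intro α β γ γ'
    obtain ⟨u, hu, hu1, hu2⟩ := exists_of_blk_eq (hWE α β γ')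
      ((hWI α β γ).trans (hWI α β γ').symm)
    obtain ⟨v, hv, hv1, hv2⟩ := exists_of_blk_eq (hWE α β γ')
      ((hWJ α β γ).trans (hWJ α β γ').symm)
    exact heavy_eq hE hs' h01 h02 h12 (hWE α β γ') hu hv hu1 hu2 hv1 hv2 (d0 α β γ)
  have e1 : ∀ α β β' γ, W α β γ 1 = W α β' γ 1 := by
    intro α β β' γ
    obtain ⟨u, hu, hu1, hu2⟩ := exists_of_blk_eq (hWE α β γ)
      ((hWI α β' γ).trans (hWI α β γ).symm)
    obtain ⟨v, hv, hv1, hv2⟩ := exists_of_blk_eq (hWE α β' γ)
      ((hWK α β γ).trans (hWK α β' γ).symm)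
    exact heavy_eq hE hs' h01.symm h12 h02 (hWE α β' γ) hu hv hu2 hu1 hv1 hv2 (d1 α β γ)
  have e2 : ∀ α α' β γ, W α β γ 2 = W α' β γ 2 := by
    intro α α' β γ
    obtain ⟨u, hu, hu1, hu2⟩ := exists_of_blk_eq (hWE α β γ)
      ((hWJ α' β γ).trans (hWJ α β γ).symm)
    obtain ⟨v, hv, hv1, hv2⟩ := exists_of_blk_eq (hWE α β γ)
      ((hWK α' β γ).trans (hWK α β γ).symm)
    exact heavy_eq hE hs' h02.symm h12.symm h01 (hWE α' β γ) hu hv hu2 hu1 hv2 hv1 (d2 α β γ)
  set f : Fin s × Fin s × Fin s → ∀ i, X i := fun p => W p.1 p.2.1 p.2.2 with hf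
  have hinj : Function.Injective f := by
    intro p p' h
    have h : W p.1 p.2.1 p.2.2 = W p'.1 p'.2.1 p'.2.2 := h
    refine Prod.ext (hI ?_) (Prod.ext (hJ ?_) (hK ?_))
    · rw [← hWI p.1 p.2.1 p.2.2, h, hWI]
    · rw [← hWJ p.1 p.2.1 p.2.2, h, hWJ]
    · rw [← hWK p.1 p.2.1 p.2.2, h, hWK]
  have h1 := hs (T.image f) (fun w hw => by
    obtain ⟨p, -, rfl⟩ := mem_image.1 hw
    exact hWE _ _ _) (by rw [card_image_of_injective _ hinj, hT])
  rw [Fin.sum_univ_three, image_image, image_image, image_image] at h1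
  refine h1.trans_le (Nat.add_le_add (Nat.add_le_add ?_ ?_) ?_)
  · refine card_image_le_of_factor T _ _ ?_
    intro p _ p' _ h
    obtain ⟨h2, h3⟩ := Prod.mk.inj h
    show W p.1 p.2.1 p.2.2 0 = W p'.1 p'.2.1 p'.2.2 0
    rw [h2, h3]; exact e0 _ _ _ _
  · refine card_image_le_of_factor T _ _ ?_
    intro p _ p' _ h
    obtain ⟨h2, h3⟩ := Prod.mk.inj h
    show W p.1 p.2.1 p.2.2 1 = W p'.1 p'.2.1 p'.2.2 1
    rw [h2, h3]; exact e1 _ _ _ _
  · refine card_image_le_of_factor T _ _ ?_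
    intro p _ p' _ h
    obtain ⟨h2, h3⟩ := Prod.mk.inj h
    show W p.1 p.2.1 p.2.2 2 = W p'.1 p'.2.1 p'.2.2 2
    rw [h2, h3]; exact e2 _ _ _ _

/-- Fewer than `s` members have two given coordinates. -/
theorem codeg_le {E : Finset (∀ i, X i)} {s : ℕ} (hs : Spread E s (s + 3)) {a b c : Fin 3}
    (hab : a ≠ b) (hac : a ≠ c) (hbc : b ≠ c) (x : X a) (y : X b) :
    #((E.filter fun t => t a = x).filter fun t => t b = y) ≤ s - 1 := by
  classical
  by_contra hcon
  push Not at hcon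
  have hle : s ≤ #((E.filter fun t => t a = x).filter fun t => t b = y) := by omega
  obtain ⟨T, hT, hTs⟩ := exists_subset_card_eq hle
  have h1 := hs T (fun t ht => (mem_filter.1 (mem_filter.1 (hT ht)).1).1) hTs
  have ha : #(T.image fun w => w a) ≤ 1 := by
    refine card_le_one.2 fun p hp q hq => ?_
    obtain ⟨t, ht, rfl⟩ := mem_image.1 hp
    obtain ⟨t', ht', rfl⟩ := mem_image.1 hq
    rw [(mem_filter.1 (mem_filter.1 (hT ht)).1).2, (mem_filter.1 (mem_filter.1 (hT ht')).1).2]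
  have hb : #(T.image fun w => w b) ≤ 1 := by
    refine card_le_one.2 fun p hp q hq => ?_
    obtain ⟨t, ht, rfl⟩ := mem_image.1 hp
    obtain ⟨t', ht', rfl⟩ := mem_image.1 hq
    rw [(mem_filter.1 (hT ht)).2, (mem_filter.1 (hT ht')).2]
  have hc : #(T.image fun w => w c) ≤ s := by rw [← hTs]; exact card_image_le
  have huniv : (univ : Finset (Fin 3)) = {a, b, c} := by
    symm
    apply eq_univ_of_card
    rw [card_insert_of_notMem (by simp [hab, hac]), card_insert_of_notMem (by simp [hbc]),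
      card_singleton, Fintype.card_fin]
  rw [huniv, sum_insert (by simp [hab, hac]), sum_insert (by simp [hbc]), sum_singleton] at h1
  omega

theorem blk_large {E : Finset (∀ i, X i)} {s : ℕ} (hs : Spread E s (s + 3)) {a b c : Fin 3}
    (hab : a ≠ b) (hac : a ≠ c) (hbc : b ≠ c) (w : ∀ i, X i)
    (hd : (s - 1) ^ 2 < #(E.filter fun t => t a = w a)) : s ≤ #(blk E a b w) := by
  classical
  have h1 : #(E.filter fun t => t a = w a) ≤ (s - 1) * #(blk E a b w) := by
    refine card_le_mul_card_image _ (s - 1) fun z hz => ?_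
    obtain ⟨t, ht, rfl⟩ := mem_image.1 hz
    refine le_trans (card_le_card ?_) (codeg_le hs hab hac hbc (w a) (t b))
    intro u hu
    obtain ⟨hu1, hu2⟩ := mem_filter.1 hu
    refine mem_filter.2 ⟨hu1, ?_⟩
    rw [Sigma.mk.injEq] at hu2
    exact eq_of_heq hu2.2
  have h2 : (s - 1) * (s - 1) < (s - 1) * #(blk E a b w) := by
    rw [← sq]; exact hd.trans_le h1
  have h3 := lt_of_mul_lt_mul_left h2 (Nat.zero_le _)
  omega

/-- A member with three coordinates of large degree produces a grid of blocks. -/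
theorem grid_of_large {E : Finset (∀ i, X i)} (hE : Rectangular (E : Set (∀ i, X i))) {s : ℕ}
    (hs : Spread E s (s + 3)) {w₀ : ∀ i, X i} (hw₀ : w₀ ∈ E)
    (hd : ∀ i, (s - 1) ^ 2 < #(E.filter fun t => t i = w₀ i)) :
    ∃ I J K : Fin s → Finset (Σ i, X i), Function.Injective I ∧ Function.Injective J ∧
      Function.Injective K ∧
      ∀ α β γ, ∃ w ∈ E, blk E 0 1 w = I α ∧ blk E 0 2 w = J β ∧ blk E 1 2 w = K γ := by
  classical
  have hs' : Spread E s ((3 - 2) * s + 3) := by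
    have : (3 - 2) * s + 3 = s + 3 := by omega
    rw [this]; exact hs
  have b20 := blk_large hs h02.symm h12.symm h01 w₀ (hd 2)
  have b21 := blk_large hs h12.symm h02.symm h01.symm w₀ (hd 2)
  have b12 := blk_large hs h12 h01.symm h02.symm w₀ (hd 1)
  have b10 := blk_large hs h01.symm h12 h02 w₀ (hd 1)
  have b01 := blk_large hs h01 h02 h12 w₀ (hd 0)
  have b02 := blk_large hs h02 h01 h12.symm w₀ (hd 0)
  obtain ⟨x, hx, hxm⟩ := exists_inj _ b20
  obtain ⟨z, hz, hzm⟩ := exists_inj _ b12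
  obtain ⟨y, hy, hym⟩ := exists_inj _ b01
  have hu : ∀ α, ∃ u ∈ E, u 2 = w₀ 2 ∧ (⟨0, u 0⟩ : Σ i, X i) = x α := by
    intro α
    obtain ⟨u, hu, h⟩ := mem_image.1 (hxm α)
    exact ⟨u, (mem_filter.1 hu).1, (mem_filter.1 hu).2, h⟩
  have hv : ∀ β, ∃ u ∈ E, u 1 = w₀ 1 ∧ (⟨2, u 2⟩ : Σ i, X i) = z β := by
    intro β
    obtain ⟨u, hu, h⟩ := mem_image.1 (hzm β)
    exact ⟨u, (mem_filter.1 hu).1, (mem_filter.1 hu).2, h⟩
  have ht : ∀ γ, ∃ u ∈ E, u 0 = w₀ 0 ∧ (⟨1, u 1⟩ : Σ i, X i) = y γ := by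
    intro γ
    obtain ⟨u, hu, h⟩ := mem_image.1 (hym γ)
    exact ⟨u, (mem_filter.1 hu).1, (mem_filter.1 hu).2, h⟩
  choose u huE hu2 hux using hu
  choose v hvE hv1 hvz using hv
  choose t htE ht0 hty using ht
  refine ⟨fun α => blk E 0 1 (u α), fun β => blk E 0 2 (v β), fun γ => blk E 1 2 (t γ),
    ?_, ?_, ?_, ?_⟩
  · intro α α' h
    have h : blk E 0 1 (u α) = blk E 0 1 (u α') := h
    have h' : blk E 0 2 (u α) = blk E 0 2 (u α') :=
      blk_right hE h02 (huE α) (huE α') ((hu2 α).trans (hu2 α').symm)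
    obtain ⟨p, hp, hp1, hp2⟩ := exists_of_blk_eq (huE α') h
    obtain ⟨q, hq, hq1, hq2⟩ := exists_of_blk_eq (huE α') h'
    have hdeg : s ≤ #(E.filter fun w => w 0 = u α 0) := by
      refine le_trans ?_ (deg_ge_blk E 0 2 (u α))
      rw [blk_right hE h02 (huE α) hw₀ (hu2 α)]
      exact b02
    have h3 := heavy_eq hE hs' h01 h02 h12 (huE α') hp hq hp1 hp2 hq1 hq2 hdeg
    exact hx (by rw [← hux, ← hux, h3])
  · intro β β' h
    have h : blk E 0 2 (v β) = blk E 0 2 (v β') := h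
    have h' : blk E 1 2 (v β) = blk E 1 2 (v β') := blk_left ((hv1 β).trans (hv1 β').symm)
    obtain ⟨p, hp, hp1, hp2⟩ := exists_of_blk_eq (hvE β) h.symm
    obtain ⟨q, hq, hq1, hq2⟩ := exists_of_blk_eq (hvE β) h'.symm
    have hdeg : s ≤ #(E.filter fun w => w 2 = v β 2) := by
      refine le_trans ?_ (deg_ge_blk E 2 1 (v β))
      rw [blk_right hE h12.symm (hvE β) hw₀ (hv1 β)]
      exact b21
    have h3 := heavy_eq hE hs' h02.symm h12.symm h01 (hvE β') hp hq hp2 hp1 hq2 hq1 hdeg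
    exact hz (by rw [← hvz, ← hvz, h3])
  · intro γ γ' h
    have h : blk E 1 2 (t γ) = blk E 1 2 (t γ') := h
    have h' : blk E 0 1 (t γ) = blk E 0 1 (t γ') := blk_left ((ht0 γ).trans (ht0 γ').symm)
    obtain ⟨p, hp, hp1, hp2⟩ := exists_of_blk_eq (htE γ) h'.symm
    obtain ⟨q, hq, hq1, hq2⟩ := exists_of_blk_eq (htE γ') h
    have hdeg : s ≤ #(E.filter fun w => w 1 = t γ 1) := by
      refine le_trans ?_ (deg_ge_blk E 1 0 (t γ))
      rw [blk_right hE h01.symm (htE γ) hw₀ (ht0 γ)]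
      exact b10
    have h3 := heavy_eq hE hs' h01.symm h12 h02 (htE γ') hp hq hp2 hp1 hq1 hq2 hdeg
    exact hy (by rw [← hty, ← hty, h3])
  · intro α β γ
    have hK1 : blk E 1 2 (u α) = blk E 1 2 (v β) :=
      (blk_right hE h12 (huE α) hw₀ (hu2 α)).trans (blk_left (hv1 β)).symm
    obtain ⟨p, hp, hp1, hp2⟩ := exists_of_blk_eq (hvE β) hK1
    have hJ1 : blk E 0 2 (u α) = blk E 0 2 (t γ) :=
      (blk_right hE h02 (huE α) hw₀ (hu2 α)).trans (blk_left (ht0 γ)).symm
    obtain ⟨q, hq, hq1, hq2⟩ := exists_of_blk_eq (htE γ) hJ1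
    have hI1 : blk E 0 1 p = blk E 0 1 q :=
      (blk_right hE h01 hp (huE α) hp1).trans (blk_left hq1).symm
    obtain ⟨w, hw, hw1, hw2⟩ := exists_of_blk_eq hq hI1
    refine ⟨w, hw, ?_, ?_, ?_⟩
    · exact (blk_left hw1).trans (blk_right hE h01 hp (huE α) hp1)
    · exact (blk_left hw1).trans (blk_right hE h02 hp (hvE β) hp2)
    · exact (blk_left hw2).trans (blk_right hE h12 hq (htE γ) hq2)

/-- The linear bound. -/
theorem linear_bound [∀ i, Fintype (X i)] {E : Finset (∀ i, X i)}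
    (hE : Rectangular (E : Set (∀ i, X i))) {s : ℕ} (hs : Spread E s (s + 3))
    (hT : ∃ T : Finset (Fin s × Fin s × Fin s), #T = s ∧
      #(T.image fun p => (p.1, p.2.1)) + #(T.image fun p => (p.1, p.2.2)) +
        #(T.image fun p => (p.2.1, p.2.2)) ≤ s + 3) :
    #E ≤ (s - 1) ^ 2 * ∑ i, Fintype.card (X i) := by
  have h0 : heavy E ((s - 1) ^ 2 + 1) = ∅ := by
    by_contra hne
    obtain ⟨w, hw⟩ := nonempty_iff_ne_empty.2 hne
    obtain ⟨hwE, hwd⟩ := mem_filter.1 hw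
    obtain ⟨I, J, K, hI, hJ, hK, h⟩ := grid_of_large hE hs hwE hwd
    obtain ⟨T, hT1, hT2⟩ := hT
    have := no_grid hE hs I J K hI hJ hK h T hT1
    omega
  have h1 := card_le_light E ((s - 1) ^ 2 + 1)
  rw [h0, card_empty, Nat.add_sub_cancel, Nat.add_zero] at h1
  exact h1

end Pool.Agent.U32.Rect
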