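import Pool.Agent.U32.Rect.Main

/-!
# Relations of any arity with rectangular projections: the linear bound
-/

set_option autoImplicit false

namespace Pool.Agent.U32.Rect

open Finset Pool.Agent.R181.Maj Pool.Agent.R181.LW

variable {r : ℕ} {X : Fin r → Type} [∀ i, DecidableEq (X i)]

theorem deg_ge_blk' (E : Finset (∀ i, X i)) (a b : Fin r) (w : ∀ i, X i) :
    #(blk E a b w) ≤ #(E.filter fun t => t a = w a) := card_image_le

theorem card_three {a b c : Fin r} (hab : a ≠ b) (hac : a ≠ c) (hbc : b ≠ c) :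
    #({a, b, c} : Finset (Fin r)) = 3 := by
  rw [card_insert_of_notMem (by simp [hab, hac]), card_insert_of_notMem (by simp [hbc]),
    card_singleton]

theorem three_le_r {a b c : Fin r} (hab : a ≠ b) (hac : a ≠ c) (hbc : b ≠ c) : 3 ≤ r := by
  have h2 := card_le_univ ({a, b, c} : Finset (Fin r))
  rwa [card_three hab hac hbc, Fintype.card_fin] at h2

/-- the sum over all coordinates, three of them singled out -/
theorem sum_le_three (T : Finset (∀ i, X i)) {a b c : Fin r} (hab : a ≠ b) (hac : a ≠ c)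
    (hbc : b ≠ c) : ∑ i, #(T.image fun w => w i) ≤
      #(T.image fun w => w a) + #(T.image fun w => w b) + #(T.image fun w => w c) +
        (r - 3) * #T := by
  classical
  have h1 : ∑ i, #(T.image fun w => w i) = ∑ i ∈ ({a, b, c} : Finset (Fin r)),
      #(T.image fun w => w i) + ∑ i ∈ (univ : Finset (Fin r)) \ {a, b, c},
      #(T.image fun w => w i) := by
    rw [add_comm]
    exact (sum_sdiff (subset_univ _)).symm
  have h2 : ∑ i ∈ (univ : Finset (Fin r)) \ {a, b, c}, #(T.image fun w => w i) ≤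
      (r - 3) * #T := by
    have h3 : #((univ : Finset (Fin r)) \ {a, b, c}) = r - 3 := by
      rw [card_sdiff_of_subset (subset_univ _), card_three hab hac hbc, card_univ,
        Fintype.card_fin]
    calc _ ≤ ∑ _i ∈ (univ : Finset (Fin r)) \ {a, b, c}, #T :=
          sum_le_sum fun i _ => card_image_le
      _ = _ := by rw [sum_const, h3, smul_eq_mul]
  rw [h1, sum_insert (by simp [hab, hac]), sum_insert (by simp [hbc]), sum_singleton]
  omega

/-- `s` members of the relation realising a set of triples of blocks. -/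
theorem no_grid' {E : Finset (∀ i, X i)} (hE : Rectangular (E : Set (∀ i, X i))) {s : ℕ}
    (hs : Spread E s ((r - 2) * s + 3)) {a b c : Fin r} (hab : a ≠ b) (hac : a ≠ c)
    (hbc : b ≠ c) (I J K : Fin s → Finset (Σ i, X i)) (hI : Function.Injective I)
    (hJ : Function.Injective J) (hK : Function.Injective K)
    (hw : ∀ α β γ, ∃ w ∈ E, blk E a b w = I α ∧ blk E a c w = J β ∧ blk E b c w = K γ)
    (T : Finset (Fin s × Fin s × Fin s)) (hT : #T = s) :
    s + 3 < #(T.image fun p => (p.1, p.2.1)) + #(T.image fun p => (p.1, p.2.2)) +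
      #(T.image fun p => (p.2.1, p.2.2)) := by
  classical
  choose W hWE hWI hWJ hWK using hw
  have d0 : ∀ α β γ, s ≤ #(E.filter fun t => t a = W α β γ a) := by
    intro α β γ
    have h1 : (univ : Finset (Fin s)).image K ⊆
        (E.filter fun t => t a = W α β γ a).image (blk E b c) := by
      intro y hy
      obtain ⟨γ', -, rfl⟩ := mem_image.1 hy
      obtain ⟨u, hu, h2, h3⟩ := exists_of_blk_eq (hWE α β γ')
        ((hWI α β γ).trans (hWI α β γ').symm)
      exact mem_image.2 ⟨u, mem_filter.2 ⟨hu, h2⟩, (blk_left h3).trans (hWK α β γ')⟩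
    have h2 := (card_le_card h1).trans card_image_le
    rwa [card_image_of_injective _ hK, card_univ, Fintype.card_fin] at h2
  have d1 : ∀ α β γ, s ≤ #(E.filter fun t => t b = W α β γ b) := by
    intro α β γ
    have h1 : (univ : Finset (Fin s)).image J ⊆
        (E.filter fun t => t b = W α β γ b).image (blk E a c) := by
      intro y hy
      obtain ⟨β', -, rfl⟩ := mem_image.1 hy
      obtain ⟨u, hu, h2, h3⟩ := exists_of_blk_eq (hWE α β' γ)
        ((hWK α β γ).trans (hWK α β' γ).symm)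
      exact mem_image.2 ⟨u, mem_filter.2 ⟨hu, h2⟩,
        (blk_right hE hac hu (hWE α β' γ) h3).trans (hWJ α β' γ)⟩
    have h2 := (card_le_card h1).trans card_image_le
    rwa [card_image_of_injective _ hJ, card_univ, Fintype.card_fin] at h2
  have d2 : ∀ α β γ, s ≤ #(E.filter fun t => t c = W α β γ c) := by
    intro α β γ
    have h1 : (univ : Finset (Fin s)).image I ⊆
        (E.filter fun t => t c = W α β γ c).image (blk E a b) := by
      intro y hy
      obtain ⟨α', -, rfl⟩ := mem_image.1 hy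
      obtain ⟨u, hu, h2, h3⟩ := exists_of_blk_eq (hWE α β γ)
        ((hWJ α' β γ).trans (hWJ α β γ).symm)
      exact mem_image.2 ⟨u, mem_filter.2 ⟨hu, h3⟩, (blk_left h2).trans (hWI α' β γ)⟩
    have h2 := (card_le_card h1).trans card_image_le
    rwa [card_image_of_injective _ hI, card_univ, Fintype.card_fin] at h2
  have e0 : ∀ α β γ γ', W α β γ a = W α β γ' a := by
    intro α β γ γ'
    obtain ⟨u, hu, hu1, hu2⟩ := exists_of_blk_eq (hWE α β γ')
      ((hWI α β γ).trans (hWI α β γ').symm)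
    obtain ⟨v, hv, hv1, hv2⟩ := exists_of_blk_eq (hWE α β γ')
      ((hWJ α β γ).trans (hWJ α β γ').symm)
    exact heavy_eq hE hs hab hac hbc (hWE α β γ') hu hv hu1 hu2 hv1 hv2 (d0 α β γ)
  have e1 : ∀ α β β' γ, W α β γ b = W α β' γ b := by
    intro α β β' γ
    obtain ⟨u, hu, hu1, hu2⟩ := exists_of_blk_eq (hWE α β γ)
      ((hWI α β' γ).trans (hWI α β γ).symm)
    obtain ⟨v, hv, hv1, hv2⟩ := exists_of_blk_eq (hWE α β' γ)
      ((hWK α β γ).trans (hWK α β' γ).symm)
    exact heavy_eq hE hs hab.symm hbc hac (hWE α β' γ) hu hv hu2 hu1 hv1 hv2 (d1 α β γ)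
  have e2 : ∀ α α' β γ, W α β γ c = W α' β γ c := by
    intro α α' β γ
    obtain ⟨u, hu, hu1, hu2⟩ := exists_of_blk_eq (hWE α β γ)
      ((hWJ α' β γ).trans (hWJ α β γ).symm)
    obtain ⟨v, hv, hv1, hv2⟩ := exists_of_blk_eq (hWE α β γ)
      ((hWK α' β γ).trans (hWK α β γ).symm)
    exact heavy_eq hE hs hac.symm hbc.symm hab (hWE α' β γ) hu hv hu2 hu1 hv2 hv1 (d2 α β γ)
  set f : Fin s × Fin s × Fin s → ∀ i, X i := fun p => W p.1 p.2.1 p.2.2 with hf
  have hinj : Function.Injective f := by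
    intro p p' h
    have h : W p.1 p.2.1 p.2.2 = W p'.1 p'.2.1 p'.2.2 := h
    refine Prod.ext (hI ?_) (Prod.ext (hJ ?_) (hK ?_))
    · rw [← hWI p.1 p.2.1 p.2.2, h, hWI]
    · rw [← hWJ p.1 p.2.1 p.2.2, h, hWJ]
    · rw [← hWK p.1 p.2.1 p.2.2, h, hWK]
  have h0 : #(T.image f) = s := by rw [card_image_of_injective _ hinj, hT]
  have h1 := hs (T.image f) (fun w hw => by
    obtain ⟨p, -, rfl⟩ := mem_image.1 hw
    exact hWE _ _ _) h0
  have h4 := sum_le_three (T.image f) hab hac hbc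
  rw [h0, image_image, image_image, image_image] at h4
  have b0 : #(T.image ((fun w : ∀ i, X i => w a) ∘ f)) ≤ #(T.image fun p => (p.1, p.2.1)) := by
    refine card_image_le_of_factor T _ _ ?_
    intro p _ p' _ h
    obtain ⟨h2, h3⟩ := Prod.mk.inj h
    show W p.1 p.2.1 p.2.2 a = W p'.1 p'.2.1 p'.2.2 a
    rw [h2, h3]; exact e0 _ _ _ _
  have b1 : #(T.image ((fun w : ∀ i, X i => w b) ∘ f)) ≤ #(T.image fun p => (p.1, p.2.2)) := by
    refine card_image_le_of_factor T _ _ ?_
    intro p _ p' _ h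
    obtain ⟨h2, h3⟩ := Prod.mk.inj h
    show W p.1 p.2.1 p.2.2 b = W p'.1 p'.2.1 p'.2.2 b
    rw [h2, h3]; exact e1 _ _ _ _
  have b2 : #(T.image ((fun w : ∀ i, X i => w c) ∘ f)) ≤ #(T.image fun p => (p.2.1, p.2.2)) := by
    refine card_image_le_of_factor T _ _ ?_
    intro p _ p' _ h
    obtain ⟨h2, h3⟩ := Prod.mk.inj h
    show W p.1 p.2.1 p.2.2 c = W p'.1 p'.2.1 p'.2.2 c
    rw [h2, h3]; exact e2 _ _ _ _
  obtain ⟨k, rfl⟩ : ∃ k, r = k + 3 := ⟨r - 3, by have := three_le_r hab hac hbc; omega⟩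
  have e3 : k + 3 - 2 = k + 1 := rfl
  have e4 : k + 3 - 3 = k := rfl
  rw [e3] at h1
  rw [e4] at h4
  have e5 : (k + 1) * s = k * s + s := by ring
  omega

/-- Fewer than `s` members have two given coordinates. -/
theorem codeg_le' {E : Finset (∀ i, X i)} {s : ℕ} (hs : Spread E s ((r - 2) * s + 3))
    {a b c : Fin r} (hab : a ≠ b) (hac : a ≠ c) (hbc : b ≠ c) (x : X a) (y : X b) :
    #((E.filter fun t => t a = x).filter fun t => t b = y) ≤ s - 1 := by
  classical
  by_contra hcon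
  push Not at hcon
  have hle : s ≤ #((E.filter fun t => t a = x).filter fun t => t b = y) := by omega
  obtain ⟨T, hT, hTs⟩ := exists_subset_card_eq hle
  have h1 := hs T (fun t ht => (mem_filter.1 (mem_filter.1 (hT ht)).1).1) hTs
  have ha : #(T.image fun w => w a) ≤ 1 := by
    refine card_le_one.2 fun p hp q hq => ?_
    obtain ⟨t, ht, rfl⟩ := mem_image.1 hp
    obtain ⟨t', ht', rfl⟩ := mem_image.1 hq
    rw [(mem_filter.1 (mem_filter.1 (hT ht)).1).2, (mem_filter.1 (mem_filter.1 (hT ht')).1).2]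
  have hb : #(T.image fun w => w b) ≤ 1 := by
    refine card_le_one.2 fun p hp q hq => ?_
    obtain ⟨t, ht, rfl⟩ := mem_image.1 hp
    obtain ⟨t', ht', rfl⟩ := mem_image.1 hq
    rw [(mem_filter.1 (hT ht)).2, (mem_filter.1 (hT ht')).2]
  have hc : #(T.image fun w => w c) ≤ s := by rw [← hTs]; exact card_image_le
  have h4 := sum_le_three T hab hac hbc
  rw [hTs] at h4
  obtain ⟨k, rfl⟩ : ∃ k, r = k + 3 := ⟨r - 3, by have := three_le_r hab hac hbc; omega⟩
  have e3 : k + 3 - 2 = k + 1 := rfl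
  have e4 : k + 3 - 3 = k := rfl
  rw [e3] at h1
  rw [e4] at h4
  have e5 : (k + 1) * s = k * s + s := by ring
  omega

theorem blk_large' {E : Finset (∀ i, X i)} {s : ℕ} (hs : Spread E s ((r - 2) * s + 3))
    {a b c : Fin r} (hab : a ≠ b) (hac : a ≠ c) (hbc : b ≠ c) (w : ∀ i, X i)
    (hd : (s - 1) ^ 2 < #(E.filter fun t => t a = w a)) : s ≤ #(blk E a b w) := by
  classical
  have h1 : #(E.filter fun t => t a = w a) ≤ (s - 1) * #(blk E a b w) := by
    refine card_le_mul_card_image _ (s - 1) fun z hz => ?_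
    obtain ⟨t, ht, rfl⟩ := mem_image.1 hz
    refine le_trans (card_le_card ?_) (codeg_le' hs hab hac hbc (w a) (t b))
    intro u hu
    obtain ⟨hu1, hu2⟩ := mem_filter.1 hu
    refine mem_filter.2 ⟨hu1, ?_⟩
    rw [Sigma.mk.injEq] at hu2
    exact eq_of_heq hu2.2
  have h2 : (s - 1) * (s - 1) < (s - 1) * #(blk E a b w) := by
    rw [← sq]; exact hd.trans_le h1
  have h3 := lt_of_mul_lt_mul_left h2 (Nat.zero_le _)
  omega

/-- A member with three coordinates of large degree produces a grid of blocks. -/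
theorem grid_of_large' {E : Finset (∀ i, X i)} (hE : Rectangular (E : Set (∀ i, X i))) {s : ℕ}
    (hs : Spread E s ((r - 2) * s + 3)) {a b c : Fin r} (hab : a ≠ b) (hac : a ≠ c)
    (hbc : b ≠ c) {w₀ : ∀ i, X i} (hw₀ : w₀ ∈ E)
    (hd : ∀ i, (s - 1) ^ 2 < #(E.filter fun t => t i = w₀ i)) :
    ∃ I J K : Fin s → Finset (Σ i, X i), Function.Injective I ∧ Function.Injective J ∧
      Function.Injective K ∧
      ∀ α β γ, ∃ w ∈ E, blk E a b w = I α ∧ blk E a c w = J β ∧ blk E b c w = K γ := by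
  classical
  have b20 := blk_large' hs hac.symm hbc.symm hab w₀ (hd c)
  have b21 := blk_large' hs hbc.symm hac.symm hab.symm w₀ (hd c)
  have b12 := blk_large' hs hbc hab.symm hac.symm w₀ (hd b)
  have b10 := blk_large' hs hab.symm hbc hac w₀ (hd b)
  have b01 := blk_large' hs hab hac hbc w₀ (hd a)
  have b02 := blk_large' hs hac hab hbc.symm w₀ (hd a)
  obtain ⟨x, hx, hxm⟩ := exists_inj _ b20
  obtain ⟨z, hz, hzm⟩ := exists_inj _ b12
  obtain ⟨y, hy, hym⟩ := exists_inj _ b01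
  have hu : ∀ α, ∃ u ∈ E, u c = w₀ c ∧ (⟨a, u a⟩ : Σ i, X i) = x α := by
    intro α
    obtain ⟨u, hu, h⟩ := mem_image.1 (hxm α)
    exact ⟨u, (mem_filter.1 hu).1, (mem_filter.1 hu).2, h⟩
  have hv : ∀ β, ∃ u ∈ E, u b = w₀ b ∧ (⟨c, u c⟩ : Σ i, X i) = z β := by
    intro β
    obtain ⟨u, hu, h⟩ := mem_image.1 (hzm β)
    exact ⟨u, (mem_filter.1 hu).1, (mem_filter.1 hu).2, h⟩
  have ht : ∀ γ, ∃ u ∈ E, u a = w₀ a ∧ (⟨b, u b⟩ : Σ i, X i) = y γ := by
    intro γ
    obtain ⟨u, hu, h⟩ := mem_image.1 (hym γ)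
    exact ⟨u, (mem_filter.1 hu).1, (mem_filter.1 hu).2, h⟩
  choose u huE hu2 hux using hu
  choose v hvE hv1 hvz using hv
  choose t htE ht0 hty using ht
  refine ⟨fun α => blk E a b (u α), fun β => blk E a c (v β), fun γ => blk E b c (t γ),
    ?_, ?_, ?_, ?_⟩
  · intro α α' h
    have h : blk E a b (u α) = blk E a b (u α') := h
    have h' : blk E a c (u α) = blk E a c (u α') :=
      blk_right hE hac (huE α) (huE α') ((hu2 α).trans (hu2 α').symm)
    obtain ⟨p, hp, hp1, hp2⟩ := exists_of_blk_eq (huE α') h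
    obtain ⟨q, hq, hq1, hq2⟩ := exists_of_blk_eq (huE α') h'
    have hdeg : s ≤ #(E.filter fun w => w a = u α a) := by
      refine le_trans ?_ (deg_ge_blk' E a c (u α))
      rw [blk_right hE hac (huE α) hw₀ (hu2 α)]
      exact b02
    have h3 := heavy_eq hE hs hab hac hbc (huE α') hp hq hp1 hp2 hq1 hq2 hdeg
    exact hx (by rw [← hux, ← hux, h3])
  · intro β β' h
    have h : blk E a c (v β) = blk E a c (v β') := h
    have h' : blk E b c (v β) = blk E b c (v β') := blk_left ((hv1 β).trans (hv1 β').symm)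
    obtain ⟨p, hp, hp1, hp2⟩ := exists_of_blk_eq (hvE β) h.symm
    obtain ⟨q, hq, hq1, hq2⟩ := exists_of_blk_eq (hvE β) h'.symm
    have hdeg : s ≤ #(E.filter fun w => w c = v β c) := by
      refine le_trans ?_ (deg_ge_blk' E c b (v β))
      rw [blk_right hE hbc.symm (hvE β) hw₀ (hv1 β)]
      exact b21
    have h3 := heavy_eq hE hs hac.symm hbc.symm hab (hvE β') hp hq hp2 hp1 hq2 hq1 hdeg
    exact hz (by rw [← hvz, ← hvz, h3])
  · intro γ γ' h
    have h : blk E b c (t γ) = blk E b c (t γ') := h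
    have h' : blk E a b (t γ) = blk E a b (t γ') := blk_left ((ht0 γ).trans (ht0 γ').symm)
    obtain ⟨p, hp, hp1, hp2⟩ := exists_of_blk_eq (htE γ) h'.symm
    obtain ⟨q, hq, hq1, hq2⟩ := exists_of_blk_eq (htE γ') h
    have hdeg : s ≤ #(E.filter fun w => w b = t γ b) := by
      refine le_trans ?_ (deg_ge_blk' E b a (t γ))
      rw [blk_right hE hab.symm (htE γ) hw₀ (ht0 γ)]
      exact b10
    have h3 := heavy_eq hE hs hab.symm hbc hac (htE γ') hp hq hp2 hp1 hq1 hq2 hdeg
    exact hy (by rw [← hty, ← hty, h3])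
  · intro α β γ
    have hK1 : blk E b c (u α) = blk E b c (v β) :=
      (blk_right hE hbc (huE α) hw₀ (hu2 α)).trans (blk_left (hv1 β)).symm
    obtain ⟨p, hp, hp1, hp2⟩ := exists_of_blk_eq (hvE β) hK1
    have hJ1 : blk E a c (u α) = blk E a c (t γ) :=
      (blk_right hE hac (huE α) hw₀ (hu2 α)).trans (blk_left (ht0 γ)).symm
    obtain ⟨q, hq, hq1, hq2⟩ := exists_of_blk_eq (htE γ) hJ1
    have hI1 : blk E a b p = blk E a b q :=
      (blk_right hE hab hp (huE α) hp1).trans (blk_left hq1).symm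
    obtain ⟨w, hw, hw1, hw2⟩ := exists_of_blk_eq hq hI1
    refine ⟨w, hw, ?_, ?_, ?_⟩
    · exact (blk_left hw1).trans (blk_right hE hab hp (huE α) hp1)
    · exact (blk_left hw1).trans (blk_right hE hac hp (hvE β) hp2)
    · exact (blk_left hw2).trans (blk_right hE hbc hq (htE γ) hq2)

/-- The linear bound. -/
theorem linear_bound' [∀ i, Fintype (X i)] {E : Finset (∀ i, X i)}
    (hE : Rectangular (E : Set (∀ i, X i))) {s : ℕ} (hr : 3 ≤ r)
    (hs : Spread E s ((r - 2) * s + 3))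
    (hT : ∃ T : Finset (Fin s × Fin s × Fin s), #T = s ∧
      #(T.image fun p => (p.1, p.2.1)) + #(T.image fun p => (p.1, p.2.2)) +
        #(T.image fun p => (p.2.1, p.2.2)) ≤ s + 3) :
    #E ≤ (s - 1) ^ 2 * ∑ i, Fintype.card (X i) := by
  have h0 : heavy E ((s - 1) ^ 2 + 1) = ∅ := by
    by_contra hne
    obtain ⟨w, hw⟩ := nonempty_iff_ne_empty.2 hne
    obtain ⟨hwE, hwd⟩ := mem_filter.1 hw
    have hab : (⟨0, by omega⟩ : Fin r) ≠ ⟨1, by omega⟩ := by
      intro h; simp at h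
    have hac : (⟨0, by omega⟩ : Fin r) ≠ ⟨2, by omega⟩ := by
      intro h; simp at h
    have hbc : (⟨1, by omega⟩ : Fin r) ≠ ⟨2, by omega⟩ := by
      intro h; simp at h
    obtain ⟨I, J, K, hI, hJ, hK, h⟩ := grid_of_large' hE hs hab hac hbc hwE hwd
    obtain ⟨T, hT1, hT2⟩ := hT
    have := no_grid' hE hs hab hac hbc I J K hI hJ hK h T hT1
    omega
  have h1 := card_le_light E ((s - 1) ^ 2 + 1)
  rw [h0, card_empty, Nat.add_sub_cancel, Nat.add_zero] at h1
  exact h1

/-- The linear bound for one piece. -/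
theorem piece_le_linear' {V : Type} [Fintype V] {r s : ℕ} (hr : 3 ≤ r) (h : s = 18 ∨ 22 ≤ s)
    {H : Set (Finset V)} (hH : SpanMore H s ((r - 2) * s + 3)) {F : Set (Finset V)}
    (hF : RectPiece r F) (hFH : F ⊆ H) : F.ncard ≤ (s - 1) ^ 2 * Fintype.card V := by
  obtain ⟨X, _, _, E, hE, hs, hcard, hsum⟩ := piece_data hH hF hFH
  rw [hcard]
  exact (linear_bound' hE hr hs (dense s h)).trans (Nat.mul_le_mul_left _ hsum)

end Pool.Agent.U32.Rect
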