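import Pool.Agent.U32.Rect.Grid

/-!
# Hypergraphs which are unions of relations with rectangular projections
-/

set_option autoImplicit false

namespace Pool.Agent.U32.Rect

open Finset Pool.Agent.R181.Maj Pool.Agent.R181.LW

/-- `p` is a Mal'cev operation. -/
def IsMalcev {A : Type} (p : A → A → A → A) : Prop := ∀ a b, p a a b = b ∧ p a b b = a

/-- `F` is a relation between `r` pairwise disjoint sets of vertices, and its projection to any two
of these sets is a disjoint union of complete bipartite graphs. -/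
def RectPiece {V : Type} (r : ℕ) (F : Set (Finset V)) : Prop :=
  ∃ (X : Fin r → Type) (f : (Σ i, X i) → V) (E : Set (∀ i, X i)),
    Function.Injective f ∧ Rectangular E ∧ F = edge f '' E

/-- `F` is a relation between `r` pairwise disjoint sets of vertices, closed under componentwise
application of some Mal'cev operations `p i` on these sets. -/
def MalcevPiece {V : Type} (r : ℕ) (F : Set (Finset V)) : Prop :=
  ∃ (X : Fin r → Type) (p : ∀ i, X i → X i → X i → X i) (f : (Σ i, X i) → V)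
    (E : Set (∀ i, X i)), (∀ i, IsMalcev (p i)) ∧ Function.Injective f ∧
    (∀ x ∈ E, ∀ y ∈ E, ∀ z ∈ E, (fun i => p i (x i) (y i) (z i)) ∈ E) ∧ F = edge f '' E

theorem MalcevPiece.rectPiece {V : Type} {r : ℕ} {F : Set (Finset V)} (h : MalcevPiece r F) :
    RectPiece r F := by
  obtain ⟨X, p, f, E, hp, hf, hE, rfl⟩ := h
  refine ⟨X, f, E, hf, ?_, rfl⟩
  intro a b _ x hx y hy z hz hxy hyz
  refine ⟨_, hE x hx y hy z hz, ?_, ?_⟩
  · show p a (x a) (y a) (z a) = z a
    rw [hxy]; exact (hp a _ _).1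
  · show p b (x b) (y b) (z b) = x b
    rw [hyz]; exact (hp b _ _).2

theorem grid_malcev (n q : ℕ) : MalcevPiece (n + 1) (grid n q) := by
  refine ⟨fun _ => Fin n → Fin q, fun _ a b c k => if a k = b k then c k else a k, id,
    Set.range fun (p : Fin (n + 1) → Fin q) i => i.removeNth p, ?_, Function.injective_id, ?_, ?_⟩
  · intro i a b
    refine ⟨?_, ?_⟩
    · funext k; simp
    · funext k
      by_cases h : a k = b k
      · simp [h]
      · simp [h]
  · rintro _ ⟨p, rfl⟩ _ ⟨p', rfl⟩ _ ⟨p'', rfl⟩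
    exact ⟨fun j => if p j = p' j then p'' j else p j, rfl⟩
  · rw [grid, ← Set.range_comp]
    rfl

/-- The data of one piece. -/
theorem piece_data {V : Type} [Fintype V] {r e d : ℕ} {H : Set (Finset V)}
    (hH : SpanMore H e d) {F : Set (Finset V)} (hF : RectPiece r F) (hFH : F ⊆ H) :
    ∃ (X : Fin r → Type) (_ : ∀ i, DecidableEq (X i)) (_ : ∀ i, Fintype (X i))
      (E : Finset (∀ i, X i)), Rectangular (E : Set (∀ i, X i)) ∧ Spread E e d ∧
      F.ncard = #E ∧ ∑ i, Fintype.card (X i) ≤ Fintype.card V := by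
  classical
  obtain ⟨X, f, E, hf, hE, rfl⟩ := hF
  have hfi : ∀ i, Function.Injective fun a : X i => f ⟨i, a⟩ := fun i a b hab =>
    eq_of_heq (Sigma.mk.inj (hf hab)).2
  haveI : ∀ i, Finite (X i) := fun i => Finite.of_injective _ (hfi i)
  letI : ∀ i, Fintype (X i) := fun i => Fintype.ofFinite (X i)
  refine ⟨X, fun i => Classical.decEq _, fun i => inferInstance, E.toFinset, ?_, ?_, ?_, ?_⟩
  · rw [Set.coe_toFinset]; exact hE
  · intro T hT hTe
    have h1 := hH (T.image (edge f)) (by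
      rw [coe_image]
      intro a ha
      obtain ⟨x, hx, rfl⟩ := ha
      exact hFH ⟨x, Set.mem_toFinset.1 (hT hx), rfl⟩)
      (by rw [card_image_of_injective _ (edge_injective hf), hTe])
    rw [union_eq hf] at h1
    exact h1
  · rw [Set.ncard_image_of_injective _ (edge_injective hf), Set.ncard_eq_toFinset_card']
  · rw [← Fintype.card_sigma]
    exact Fintype.card_le_of_injective f hf

/-- The bound for one piece. -/
theorem piece_le_real {V : Type} [Fintype V] {r e : ℕ} (hr : 3 ≤ r) (he : 1 ≤ e)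
    {H : Set (Finset V)} (hH : SpanMore H e ((r - 2) * e + 3)) {F : Set (Finset V)}
    (hF : RectPiece r F) (hFH : F ⊆ H) :
    (F.ncard : ℝ) ≤ (e - 1) * Fintype.card V + ((Fintype.card V : ℝ) / r) ^ (3 / 2 : ℝ) := by
  classical
  obtain ⟨X, _, _, E, hE, hs, hcard, hsum⟩ := piece_data hH hF hFH
  have h1 := card_le_light E e
  have h2 := heavy_mean hE hs hr
  have h3 : ((#E : ℕ) : ℝ) ≤ (e - 1) * (∑ i, Fintype.card (X i) : ℕ) + (#(heavy E e) : ℕ) := by
    have : ((#E : ℕ) : ℝ) ≤ (((e - 1) * ∑ i, Fintype.card (X i) + #(heavy E e) : ℕ) : ℝ) := by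
      exact_mod_cast h1
    rw [Nat.cast_add, Nat.cast_mul, Nat.cast_sub he] at this
    simpa using this
  have hr0 : (0 : ℝ) < r := by exact_mod_cast (show 0 < r by omega)
  have h4 : ((#(heavy E e) : ℕ) : ℝ) ≤ ((Fintype.card V : ℝ) / r) ^ (3 / 2 : ℝ) := by
    refine le_of_pow_le_pow_left₀ (n := 2) (by norm_num) (by positivity) ?_
    have h5 : (((Fintype.card V : ℝ) / r) ^ (3 / 2 : ℝ)) ^ 2 = ((Fintype.card V : ℝ) / r) ^ 3 := by
      rw [← Real.rpow_natCast, ← Real.rpow_mul (by positivity)]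
      norm_num
    rw [h5, div_pow, le_div_iff₀ (by positivity)]
    have h6 : ((r ^ 3 * #(heavy E e) ^ 2 : ℕ) : ℝ) ≤ ((Fintype.card V ^ 3 : ℕ) : ℝ) := by
      exact_mod_cast h2.trans (Nat.pow_le_pow_left hsum 3)
    push_cast at h6
    linarith
  have h7 : ((e : ℝ) - 1) * (∑ i, Fintype.card (X i) : ℕ) ≤ (e - 1) * Fintype.card V := by
    have h8 : (0 : ℝ) ≤ (e : ℝ) - 1 := by
      have : (1 : ℝ) ≤ e := by exact_mod_cast he
      linarith
    exact mul_le_mul_of_nonneg_left (by exact_mod_cast hsum) h8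
  rw [hcard]
  linarith

/-- The linear bound for one piece. -/
theorem piece_le_linear {V : Type} [Fintype V] {s : ℕ} (h : s = 18 ∨ 22 ≤ s)
    {H : Set (Finset V)} (hH : SpanMore H s (s + 3)) {F : Set (Finset V)}
    (hF : RectPiece 3 F) (hFH : F ⊆ H) : F.ncard ≤ (s - 1) ^ 2 * Fintype.card V := by
  obtain ⟨X, _, _, E, hE, hs, hcard, hsum⟩ := piece_data hH hF hFH
  rw [hcard]
  exact (linear_bound hE hs (dense s h)).trans (Nat.mul_le_mul_left _ hsum)

end Pool.Agent.U32.Rect
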