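import Pool.Agent.R181.MajPieces

/-!
# Relations all of whose binary projections are disjoint unions of complete bipartite graphs
-/

set_option autoImplicit false

namespace Pool.Agent.U32.Rect

open Finset Pool.Agent.R181.Maj Pool.Agent.R181.LW

section Rel

variable {r : ℕ} {X : Fin r → Type}

/-- Every projection of the relation `E` to two coordinates is a disjoint union of complete
bipartite graphs. -/
def Rectangular (E : Set (∀ i, X i)) : Prop :=
  ∀ a b, a ≠ b → ∀ x ∈ E, ∀ y ∈ E, ∀ z ∈ E, x a = y a → y b = z b → ∃ w ∈ E, w a = z a ∧ w b = x b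

variable [∀ i, DecidableEq (X i)]

theorem sum_insert_le (T : Finset (∀ i, X i)) (w : ∀ i, X i) (s : Finset (Fin r)) :
    ∑ i ∈ s, #((insert w T).image fun u => u i) ≤ ∑ i ∈ s, #(T.image fun u => u i) + #s := by
  calc ∑ i ∈ s, #((insert w T).image fun u => u i)
      ≤ ∑ i ∈ s, (#(T.image fun u => u i) + 1) := sum_le_sum fun i _ => by
        rw [image_insert]; exact card_insert_le _ _
    _ = _ := by rw [sum_add_distrib]; simp

theorem grow (E : Finset (∀ i, X i)) {a b c : Fin r} (hab : a ≠ b) (hac : a ≠ c) (hbc : b ≠ c)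
    {x x' : X a} (hx : x ≠ x')
    (hb : ∀ w ∈ E, w a = x → ∃ w' ∈ E, w' a = x' ∧ w' b = w b)
    (hb' : ∀ w ∈ E, w a = x' → ∃ w' ∈ E, w' a = x ∧ w' b = w b)
    (hc : ∀ w ∈ E, w a = x → ∃ w' ∈ E, w' a = x' ∧ w' c = w c)
    (hc' : ∀ w ∈ E, w a = x' → ∃ w' ∈ E, w' a = x ∧ w' c = w c) (m : ℕ) :
    m ≤ #(E.filter fun w => w a = x ∨ w a = x') →
    ∃ T ⊆ E.filter (fun w => w a = x ∨ w a = x'), #T = m ∧
      2 + ∑ i ∈ univ.erase a, #(T.image fun w => w i) ≤ (r - 2) * m + 3 := by
  classical
  have hcard : #((univ : Finset (Fin r)).erase a) = r - 1 := by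
    rw [card_erase_of_mem (mem_univ _), card_univ, Fintype.card_fin]
  have hr : 3 ≤ r := by
    have h1 : #({a, b, c} : Finset (Fin r)) = 3 := by
      rw [card_insert_of_notMem (by simp [hab, hac]), card_insert_of_notMem (by simp [hbc]),
        card_singleton]
    have h2 := card_le_univ ({a, b, c} : Finset (Fin r))
    rw [h1, Fintype.card_fin] at h2
    exact h2
  set D := E.filter fun w => w a = x ∨ w a = x' with hD
  induction m with
  | zero =>
    intro _
    exact ⟨∅, empty_subset _, card_empty, by simp⟩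
  | succ m ih =>
    intro hm
    obtain ⟨T, hTD, hTm, hT⟩ := ih (by omega)
    obtain ⟨k, rfl⟩ : ∃ k, r = k + 3 := ⟨r - 3, by omega⟩
    have hk2 : k + 3 - 2 = k + 1 := rfl
    have hk1 : k + 3 - 1 = k + 2 := rfl
    rw [hk2] at hT ⊢
    rw [hk1] at hcard
    by_cases h : ∃ w ∈ D, w ∉ T ∧ ∃ i, i ≠ a ∧ w i ∈ T.image fun u => u i
    · obtain ⟨w, hwD, hwT, i, hia, hi⟩ := h
      refine ⟨insert w T, insert_subset hwD hTD, by rw [card_insert_of_notMem hwT, hTm], ?_⟩
      have hmem : i ∈ (univ : Finset (Fin (k + 3))).erase a := mem_erase.2 ⟨hia, mem_univ _⟩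
      have h1 : #((insert w T).image fun u => u i) = #(T.image fun u => u i) := by
        rw [image_insert, insert_eq_of_mem hi]
      have h2 := sum_insert_le T w (((univ : Finset (Fin (k + 3))).erase a).erase i)
      have h3 : #(((univ : Finset (Fin (k + 3))).erase a).erase i) = k + 1 := by
        rw [card_erase_of_mem hmem, hcard]; rfl
      rw [h3] at h2
      rw [← add_sum_erase _ _ hmem] at hT ⊢
      rw [h1]
      have h4 : (k + 1) * (m + 1) = (k + 1) * m + (k + 1) := by ring
      omega
    · push Not at h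
      have hclosed : ∀ w ∈ D, ∀ i, i ≠ a → w i ∈ T.image (fun u => u i) → w ∈ T := by
        intro w hw i hi hwi
        by_contra hwT
        exact h w hw hwT i hi hwi
      obtain ⟨w, hwD, hwT⟩ : ∃ w ∈ D, w ∉ T := by
        by_contra hcon
        push Not at hcon
        have := card_le_card (show D ⊆ T from hcon)
        omega
      refine ⟨insert w T, insert_subset hwD hTD, by rw [card_insert_of_notMem hwT, hTm], ?_⟩
      have hRB : #(T.filter fun w => w a = x) + #(T.filter fun w => w a = x') = m := by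
        rw [← hTm, ← card_union_of_disjoint, ← filter_or]
        · congr 1
          exact filter_true_of_mem fun w hw => (mem_filter.1 (hTD hw)).2
        · rw [disjoint_left]
          intro w h1 h2
          exact hx ((mem_filter.1 h1).2.symm.trans (mem_filter.1 h2).2)
      have hb1 : #(T.image fun u => u b) ≤ #(T.filter fun w => w a = x) := by
        have : T.image (fun u => u b) ⊆ (T.filter fun w => w a = x).image fun u => u b := by
          intro y hy
          obtain ⟨u, hu, rfl⟩ := mem_image.1 hy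
          rcases (mem_filter.1 (hTD hu)).2 with h1 | h1
          · exact mem_image.2 ⟨u, mem_filter.2 ⟨hu, h1⟩, rfl⟩
          · obtain ⟨u', hu', h2, h3⟩ := hb' u (mem_filter.1 (hTD hu)).1 h1
            have h4 : u' ∈ T := hclosed u' (mem_filter.2 ⟨hu', Or.inl h2⟩) b hab.symm
              (by rw [h3]; exact mem_image_of_mem _ hu)
            exact mem_image.2 ⟨u', mem_filter.2 ⟨h4, h2⟩, h3⟩
        exact (card_le_card this).trans card_image_le
      have hc1 : #(T.image fun u => u c) ≤ #(T.filter fun w => w a = x') := by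
        have : T.image (fun u => u c) ⊆ (T.filter fun w => w a = x').image fun u => u c := by
          intro y hy
          obtain ⟨u, hu, rfl⟩ := mem_image.1 hy
          rcases (mem_filter.1 (hTD hu)).2 with h1 | h1
          · obtain ⟨u', hu', h2, h3⟩ := hc u (mem_filter.1 (hTD hu)).1 h1
            have h4 : u' ∈ T := hclosed u' (mem_filter.2 ⟨hu', Or.inr h2⟩) c hac.symm
              (by rw [h3]; exact mem_image_of_mem _ hu)
            exact mem_image.2 ⟨u', mem_filter.2 ⟨h4, h2⟩, h3⟩
          · exact mem_image.2 ⟨u, mem_filter.2 ⟨hu, h1⟩, rfl⟩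
        exact (card_le_card this).trans card_image_le
      have hbm : b ∈ (univ : Finset (Fin (k + 3))).erase a := mem_erase.2 ⟨hab.symm, mem_univ _⟩
      have hcm : c ∈ ((univ : Finset (Fin (k + 3))).erase a).erase b :=
        mem_erase.2 ⟨hbc.symm, mem_erase.2 ⟨hac.symm, mem_univ _⟩⟩
      have h5 : ∑ i ∈ ((((univ : Finset (Fin (k + 3))).erase a).erase b).erase c),
          #(T.image fun w => w i) ≤ k * m := by
        have h6 : #((((univ : Finset (Fin (k + 3))).erase a).erase b).erase c) = k := by
          rw [card_erase_of_mem hcm, card_erase_of_mem hbm, hcard]; omega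
        calc _ ≤ ∑ i ∈ ((((univ : Finset (Fin (k + 3))).erase a).erase b).erase c), m :=
              sum_le_sum fun i _ => by rw [← hTm]; exact card_image_le
          _ = k * m := by rw [sum_const, h6, smul_eq_mul]
      have h7 : ∑ i ∈ (univ : Finset (Fin (k + 3))).erase a, #(T.image fun w => w i) ≤
          (k + 1) * m := by
        rw [← add_sum_erase _ _ hbm, ← add_sum_erase _ _ hcm]
        have h8 : (k + 1) * m = k * m + m := by ring
        omega
      have h9 := sum_insert_le T w ((univ : Finset (Fin (k + 3))).erase a)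
      rw [hcard] at h9
      have h10 : (k + 1) * (m + 1) = (k + 1) * m + (k + 1) := by ring
      omega

/-- Any `e` members of the relation have more than `d` different coordinates. -/
def Spread (E : Finset (∀ i, X i)) (e d : ℕ) : Prop :=
  ∀ T ⊆ E, #T = e → d < ∑ i, #(T.image fun w => w i)

/-- A coordinate with many members of the relation is determined by its blocks in two other
directions. -/
theorem heavy_eq {E : Finset (∀ i, X i)} (hE : Rectangular (E : Set (∀ i, X i))) {e : ℕ}
    (hs : Spread E e ((r - 2) * e + 3)) {a b c : Fin r} (hab : a ≠ b) (hac : a ≠ c) (hbc : b ≠ c)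
    {w w' u v : ∀ i, X i} (hw' : w' ∈ E) (hu : u ∈ E) (hv : v ∈ E)
    (hua : u a = w a) (hub : u b = w' b) (hva : v a = w a) (hvc : v c = w' c)
    (he : e ≤ #(E.filter fun t => t a = w a)) : w a = w' a := by
  classical
  by_contra hne
  have h1 : ∀ t ∈ E, t a = w a → ∃ t' ∈ E, t' a = w' a ∧ t' b = t b := by
    intro t ht h
    exact hE a b hab t ht u hu w' hw' (h.trans hua.symm) hub
  have h2 : ∀ t ∈ E, t a = w' a → ∃ t' ∈ E, t' a = w a ∧ t' b = t b := by
    intro t ht h
    obtain ⟨s, hs, hs1, hs2⟩ := hE a b hab t ht w' hw' u hu h hub.symm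
    exact ⟨s, hs, hs1.trans hua, hs2⟩
  have h3 : ∀ t ∈ E, t a = w a → ∃ t' ∈ E, t' a = w' a ∧ t' c = t c := by
    intro t ht h
    exact hE a c hac t ht v hv w' hw' (h.trans hva.symm) hvc
  have h4 : ∀ t ∈ E, t a = w' a → ∃ t' ∈ E, t' a = w a ∧ t' c = t c := by
    intro t ht h
    obtain ⟨s, hs, hs1, hs2⟩ := hE a c hac t ht w' hw' v hv h hvc.symm
    exact ⟨s, hs, hs1.trans hva, hs2⟩
  obtain ⟨T, hT, hTe, hT2⟩ := grow E hab hac hbc hne h1 h2 h3 h4 e
    (he.trans (card_le_card fun t ht => mem_filter.2
      ⟨(mem_filter.1 ht).1, Or.inl (mem_filter.1 ht).2⟩))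
  have h5 := hs T (hT.trans (filter_subset _ _)) hTe
  rw [← add_sum_erase _ _ (mem_univ a)] at h5
  have h6 : #(T.image fun w => w a) ≤ 2 := by
    have : T.image (fun w => w a) ⊆ {w a, w' a} := by
      intro y hy
      obtain ⟨t, ht, rfl⟩ := mem_image.1 hy
      rcases (mem_filter.1 (hT ht)).2 with h | h
      · rw [h]; simp
      · rw [h]; simp
    exact (card_le_card this).trans card_le_two
  omega

end Rel

end Pool.Agent.U32.Rect
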