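import Pool.Agent.U32.Rect.Lin

/-!
# The exact set of the numbers of edges for which the grid is dense
-/

set_option autoImplicit false

namespace Pool.Agent.U32.Rect

open Finset Pool.Agent.R181.Maj Pool.Agent.R181.LW

/-- `cT n` is the least `k` with `4 n ≤ k ^ 2`, for `n ≤ 21`. -/
def cT : List ℕ := [0, 2, 3, 4, 4, 5, 5, 6, 6, 6, 7, 7, 7, 8, 8, 8, 8, 9, 9, 9, 9, 10]

/-- `gT t m` is the least value of `∑ cT (n i)` for the partitions `m = ∑ n i` with parts at most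
`t`, for `t, m ≤ 21`. -/
def gT : List (List ℕ) :=
  [[0, 99, 99, 99, 99, 99, 99, 99, 99, 99, 99, 99, 99, 99, 99, 99, 99, 99, 99, 99, 99, 99],
   [0, 2, 4, 6, 8, 10, 12, 14, 16, 18, 20, 22, 24, 26, 28, 30, 32, 34, 36, 38, 40, 42],
   [0, 2, 3, 5, 6, 8, 9, 11, 12, 14, 15, 17, 18, 20, 21, 23, 24, 26, 27, 29, 30, 32],
   [0, 2, 3, 4, 6, 7, 8, 10, 11, 12, 14, 15, 16, 18, 19, 20, 22, 23, 24, 26, 27, 28],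
   [0, 2, 3, 4, 4, 6, 7, 8, 8, 10, 11, 12, 12, 14, 15, 16, 16, 18, 19, 20, 20, 22],
   [0, 2, 3, 4, 4, 5, 7, 8, 8, 9, 10, 12, 12, 13, 14, 15, 16, 17, 18, 19, 20, 21],
   [0, 2, 3, 4, 4, 5, 5, 7, 8, 9, 9, 10, 10, 12, 13, 14, 14, 15, 15, 17, 18, 19],
   [0, 2, 3, 4, 4, 5, 5, 6, 8, 9, 9, 10, 10, 11, 12, 14, 14, 15, 15, 16, 17, 18],
   [0, 2, 3, 4, 4, 5, 5, 6, 6, 8, 9, 10, 10, 11, 11, 12, 12, 14, 15, 16, 16, 17],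
   [0, 2, 3, 4, 4, 5, 5, 6, 6, 6, 8, 9, 10, 10, 11, 11, 12, 12, 12, 14, 15, 16],
   [0, 2, 3, 4, 4, 5, 5, 6, 6, 6, 7, 9, 10, 10, 11, 11, 12, 12, 12, 13, 14, 16],
   [0, 2, 3, 4, 4, 5, 5, 6, 6, 6, 7, 7, 9, 10, 11, 11, 12, 12, 12, 13, 13, 14],
   [0, 2, 3, 4, 4, 5, 5, 6, 6, 6, 7, 7, 7, 9, 10, 11, 11, 12, 12, 13, 13, 13],
   [0, 2, 3, 4, 4, 5, 5, 6, 6, 6, 7, 7, 7, 8, 10, 11, 11, 12, 12, 13, 13, 13],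
   [0, 2, 3, 4, 4, 5, 5, 6, 6, 6, 7, 7, 7, 8, 8, 10, 11, 12, 12, 13, 13, 13],
   [0, 2, 3, 4, 4, 5, 5, 6, 6, 6, 7, 7, 7, 8, 8, 8, 10, 11, 12, 12, 13, 13],
   [0, 2, 3, 4, 4, 5, 5, 6, 6, 6, 7, 7, 7, 8, 8, 8, 8, 10, 11, 12, 12, 13],
   [0, 2, 3, 4, 4, 5, 5, 6, 6, 6, 7, 7, 7, 8, 8, 8, 8, 9, 11, 12, 12, 13],
   [0, 2, 3, 4, 4, 5, 5, 6, 6, 6, 7, 7, 7, 8, 8, 8, 8, 9, 9, 11, 12, 13],
   [0, 2, 3, 4, 4, 5, 5, 6, 6, 6, 7, 7, 7, 8, 8, 8, 8, 9, 9, 9, 11, 12],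
   [0, 2, 3, 4, 4, 5, 5, 6, 6, 6, 7, 7, 7, 8, 8, 8, 8, 9, 9, 9, 9, 11],
   [0, 2, 3, 4, 4, 5, 5, 6, 6, 6, 7, 7, 7, 8, 8, 8, 8, 9, 9, 9, 9, 10]]

def c (n : ℕ) : ℕ := cT.getD n 0

def g (t m : ℕ) : ℕ := (gT.getD t []).getD m 0

set_option maxRecDepth 100000 in
theorem check1 : ∀ t : Fin 22, ∀ m : Fin 22, ∀ n : Fin 22, 1 ≤ n.1 → n.1 ≤ t.1 → n.1 ≤ m.1 →
    g t.1 m.1 ≤ c n.1 + g t.1 (m.1 - n.1) := by decide +kernel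

theorem check2 : ∀ s : Fin 22, 3 ≤ s.1 → s.1 ≠ 18 → ∀ t : Fin 22, 1 ≤ t.1 → t.1 ≤ s.1 →
    s.1 + 4 ≤ t.1 + g t.1 s.1 := by decide +kernel

theorem check3 : ∀ n : Fin 22, 1 ≤ n.1 → (c n.1 - 1) ^ 2 < 4 * n.1 := by decide +kernel

theorem check4 : ∀ t : Fin 22, g t.1 0 = 0 := by decide +kernel

end Pool.Agent.U32.Rect
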